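import Pool.Agent.H756QS.Cone

set_option autoImplicit false
set_option linter.unusedSectionVars false

/-!
Selection of a subsequence, bounded functions.
-/

noncomputable section

namespace Pool.Agent.H756QS

open Filter Set

variable {M : Type} [MetricSpace M]

theorem Adm.cut {o : M} {L θ : ℝ} {g : ℕ → M → ℝ} (hg : Adm o L g) (hθ : 0 ≤ θ) :
    Adm o L (fun n x => max 0 (g n x - θ)) where
  nn q x := le_max_left _ _
  lip q x y := by
    have h1 := abs_max_sub_max_le_abs (g q x - θ) (g q y - θ) 0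
    rw [max_comm _ (0 : ℝ), max_comm _ (0 : ℝ)] at h1
    refine h1.trans ?_
    have : g q x - θ - (g q y - θ) = g q x - g q y := by ring
    rw [this]
    exact hg.lip q x y
  base q := by
    have := hg.base q
    simp only [this, zero_sub]
    exact max_eq_left (by linarith)

/-- the points where the cone over the `p`-th support is positive -/
def Npos (C : ℝ) (v : ℕ → M →₀ ℝ) (h : ℕ → M → ℝ) (p : ℕ) : Set M :=
  {x | ∃ s ∈ (v p).support, C * dist x s < h p s}

theorem eventually_gt (U : Ultrafilter ℕ) (hU : (U : Filter ℕ) ≤ cofinite) (p : ℕ) :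
    ∀ᶠ n in (U : Filter ℕ), p < n := by
  apply hU
  rw [Filter.mem_cofinite]
  refine (Set.finite_Iic p).subset fun n hn => ?_
  simpa using hn

theorem small_Npos (U : Ultrafilter ℕ) (hU : (U : Filter ℕ) ≤ cofinite) (o : M) (ε : ℝ)
    (hε : 0 < ε) (hsep : ∀ x y : M, x ≠ y → ε ≤ dist x y) (v : ℕ → M →₀ ℝ) (K : ℝ)
    (hK : ∀ n, ∑ x ∈ (v n).support, |v n x| ≤ K) (h : ℕ → M → ℝ) (L C H : ℝ) (hL : 0 < L)
    (hLC : 4 * L ≤ C) (hh : Adm o L h) (hhH : ∀ n x, h n x ≤ H)
    (hlim : ∀ x, ∀ᶠ n in (U : Filter ℕ), h n x = 0) (η : ℝ) (hη : 0 < η) :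
    ∀ᶠ p in (U : Filter ℕ), ∀ᶠ n in (U : Filter ℕ), nu (v n) (Npos C v h p) ≤ η := by
  have hC : 0 < C := by linarith
  have hsupp : ∀ p, ∀ᶠ p' in (U : Filter ℕ), ∀ s ∈ (v p).support, h p' s = 0 := by
    intro p
    rw [Filter.eventually_all_finset]
    exact fun s _ => hlim s
  -- the small cones
  let T : ℕ → Set M := fun p => {x | x ∈ (v p).support ∧ 0 < h p x}
  have hT : ∀ p, ∀ᶠ p' in (U : Filter ℕ), Disjoint (T p) (T p') := by
    intro p
    filter_upwards [hsupp p] with p' hp'
    rw [Set.disjoint_left]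
    rintro x ⟨hx1, _⟩ ⟨_, hx2⟩
    rw [hp' x hx1] at hx2
    exact lt_irrefl _ hx2
  -- the scales
  let a : ℕ → ℝ := fun j => C * ε * 2 ^ j
  have ha : ∀ j, 0 < a j := fun j => by positivity
  let N : ℕ → ℕ → Set M := fun j p =>
    {x | ∃ s ∈ (v p).support, a j ≤ h p s ∧ h p s < 2 * a j ∧ C * dist x s < h p s}
  have hN : ∀ j p, ∀ᶠ p' in (U : Filter ℕ), Disjoint (N j p) (N j p') := by
    intro j p
    filter_upwards [hsupp p] with p' hp'
    rw [Set.disjoint_left]
    rintro x ⟨s, hs, hs1, hs2, hs3⟩ ⟨s', hs', hs1', hs2', hs3'⟩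
    have h1 : dist s s' ≤ dist x s + dist x s' := by
      rw [dist_comm x s]; exact dist_triangle _ _ _
    have h2 : C * dist s s' < 4 * a j := by
      have := mul_le_mul_of_nonneg_left h1 hC.le
      nlinarith
    have h3 := (abs_le.1 (hh.lip p' s s')).1
    rw [hp' s hs] at h3
    have h4 : 4 * L * dist s s' ≤ C * dist s s' := mul_le_mul_of_nonneg_right hLC dist_nonneg
    nlinarith
  obtain ⟨Q, hQ⟩ := pow_unbounded_of_one_lt (H / (C * ε)) (one_lt_two : (1 : ℝ) < 2)
  have hsub : ∀ p, Npos C v h p ⊆ T p ∪ ⋃ j ∈ Finset.range Q, N j p := by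
    rintro p x ⟨s, hs, hx⟩
    by_cases hxs : x = s
    · left
      subst hxs
      refine ⟨hs, ?_⟩
      rwa [dist_self, mul_zero] at hx
    · right
      have h1 := hsep x s hxs
      have h2 : C * ε < h p s := lt_of_le_of_lt (mul_le_mul_of_nonneg_left h1 hC.le) hx
      have hCε : 0 < C * ε := by positivity
      have h3 : 1 ≤ h p s / (C * ε) := by
        rw [le_div_iff₀ hCε]; linarith
      obtain ⟨j, hj1, hj2⟩ := exists_nat_pow_near h3 (one_lt_two : (1 : ℝ) < 2)
      rw [le_div_iff₀ hCε] at hj1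
      rw [div_lt_iff₀ hCε] at hj2
      have hjQ : j < Q := by
        by_contra hcon
        have h4 : (2 : ℝ) ^ Q ≤ 2 ^ j := pow_le_pow_right₀ one_le_two (not_lt.1 hcon)
        rw [div_lt_iff₀ hCε] at hQ
        have h5 := hhH p s
        nlinarith
      rw [Set.mem_iUnion₂]
      refine ⟨j, Finset.mem_range.2 hjQ, s, hs, ?_, ?_, hx⟩
      · show C * ε * 2 ^ j ≤ _
        linarith
      · show _ < 2 * (C * ε * 2 ^ j)
        rw [pow_succ] at hj2
        linarith
  have hη1 : 0 < η / (2 * (Q + 1)) := by positivity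
  have e1 := small_mass U hU v K hK T hT (η / 2) (by positivity)
  have e2 : ∀ᶠ p in (U : Filter ℕ), ∀ j ∈ Finset.range Q, ∀ᶠ n in (U : Filter ℕ),
      nu (v n) (N j p) ≤ η / (2 * (Q + 1)) := by
    rw [Filter.eventually_all_finset]
    exact fun j _ => small_mass U hU v K hK (N j) (hN j) _ hη1
  filter_upwards [e1, e2] with p hp1 hp2
  rw [← Filter.eventually_all_finset] at hp2
  filter_upwards [hp1, hp2] with n hn1 hn2
  calc nu (v n) (Npos C v h p) ≤ nu (v n) (T p ∪ ⋃ j ∈ Finset.range Q, N j p) :=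
        nu_mono _ (hsub p)
    _ ≤ nu (v n) (T p) + nu (v n) (⋃ j ∈ Finset.range Q, N j p) := nu_union_le _ _ _
    _ ≤ η / 2 + ∑ j ∈ Finset.range Q, nu (v n) (N j p) := by
        have := nu_biUnion_le (v n) (Finset.range Q) (fun j => N j p)
        linarith
    _ ≤ η / 2 + ∑ j ∈ Finset.range Q, η / (2 * (Q + 1)) := by
        have := Finset.sum_le_sum hn2
        linarith
    _ ≤ η := by
        rw [Finset.sum_const, Finset.card_range, nsmul_eq_mul]
        have h6 : (Q : ℝ) * (η / (2 * (Q + 1))) ≤ η / 2 := by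
          rw [mul_div_assoc', div_le_div_iff₀ (by positivity) (by positivity)]
          nlinarith
        linarith

theorem caseA (U : Ultrafilter ℕ) (hU : (U : Filter ℕ) ≤ cofinite) (o : M) (ε : ℝ)
    (hε : 0 < ε) (hsep : ∀ x y : M, x ≠ y → ε ≤ dist x y) (v : ℕ → M →₀ ℝ) (K : ℝ) (hK0 : 0 < K)
    (hK : ∀ n, ∑ x ∈ (v n).support, |v n x| ≤ K) (g : ℕ → M → ℝ) (L C H : ℝ) (hL : 0 < L)
    (hLC : 4 * L ≤ C) (hg : Adm o L g) (hH : 0 < H) (hgH : ∀ n x, g n x ≤ H)
    (hlim : ∀ x, ∀ θ : ℝ, 0 < θ → ∀ᶠ n in (U : Filter ℕ), g n x ≤ θ) (κ : ℝ) (hκ : 0 < κ)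
    (hpr : ∀ᶠ n in (U : Filter ℕ), κ ≤ pr (v n) (g n)) :
    ∃ (h : ℕ → M → ℝ) (f : ℕ → ℕ), Adm o L h ∧ StrictMono f ∧
      (∀ k i, k < i → ∀ x ∈ (v (f k)).support, h (f i) x = 0) ∧
      ∀ j k, j ≤ k → κ / 2 ≤ pr (v (f k)) (cone C (fun n => (v n).support) h (f '' Ici j)) := by
  classical
  have hC : 0 < C := by linarith
  have hLC' : L ≤ C := by linarith
  set θ : ℝ := κ / (4 * K) with hθdef
  have hθ : 0 < θ := by positivity
  set h : ℕ → M → ℝ := fun n x => max 0 (g n x - θ) with hdef
  have hh : Adm o L h := hg.cut hθ.le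
  have hhg : ∀ n x, h n x ≤ g n x := fun n x => max_le (hg.nn n x) (by linarith)
  have hhH : ∀ n x, h n x ≤ H := fun n x => (hhg n x).trans (hgH n x)
  have hlim' : ∀ x, ∀ᶠ n in (U : Filter ℕ), h n x = 0 := by
    intro x
    filter_upwards [hlim x θ hθ] with n hn
    exact max_eq_left (by linarith)
  have hsmall := fun (η : ℝ) (hη : 0 < η) =>
    small_Npos U hU o ε hε hsep v K hK h L C H hL hLC hh hhH hlim' η hη
  let e : ℕ → ℝ := fun i => κ / (4 * H) * (1 / 2) ^ (i + 1)
  have he : ∀ i, 0 < e i := fun i => by positivity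
  obtain ⟨f, hf⟩ := exists_seq (α := ℕ) (fun k s n =>
    (∀ p ∈ s, p < n) ∧ (∀ p ∈ s, ∀ x ∈ (v p).support, h n x = 0) ∧
    (∀ p ∈ s, ∀ i ∈ Finset.range (k + 1),
      (∀ᶠ m in (U : Filter ℕ), nu (v m) (Npos C v h p) ≤ e i) → nu (v n) (Npos C v h p) ≤ e i) ∧
    (∀ᶠ m in (U : Filter ℕ), nu (v m) (Npos C v h n) ≤ e k) ∧ κ ≤ pr (v n) (g n)) (by
      intro k s
      have e1 : ∀ᶠ n in (U : Filter ℕ), ∀ p ∈ s, p < n := by
        rw [Filter.eventually_all_finset]
        exact fun p _ => eventually_gt U hU p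
      have e2 : ∀ᶠ n in (U : Filter ℕ), ∀ p ∈ s, ∀ x ∈ (v p).support, h n x = 0 := by
        rw [Filter.eventually_all_finset]
        intro p _
        rw [Filter.eventually_all_finset]
        exact fun x _ => hlim' x
      have e3 : ∀ᶠ n in (U : Filter ℕ), ∀ p ∈ s, ∀ i ∈ Finset.range (k + 1),
          (∀ᶠ m in (U : Filter ℕ), nu (v m) (Npos C v h p) ≤ e i) →
            nu (v n) (Npos C v h p) ≤ e i := by
        rw [Filter.eventually_all_finset]
        intro p _
        rw [Filter.eventually_all_finset]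
        intro i _
        by_cases hc : ∀ᶠ m in (U : Filter ℕ), nu (v m) (Npos C v h p) ≤ e i
        · filter_upwards [hc] with n hn _
          exact hn
        · filter_upwards with n hn
          exact absurd hn hc
      have e4 := hsmall (e k) (he k)
      obtain ⟨n, hn⟩ := (e1.and (e2.and (e3.and (e4.and hpr)))).exists
      exact ⟨n, hn.1, hn.2.1, hn.2.2.1, hn.2.2.2.1, hn.2.2.2.2⟩)
  have hmem : ∀ k i, k < i → f k ∈ (Finset.range i).image f := fun k i hki =>
    Finset.mem_image.2 ⟨k, Finset.mem_range.2 hki, rfl⟩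
  have hzero : ∀ k i, k < i → ∀ x ∈ (v (f k)).support, h (f i) x = 0 := fun k i hki x hx =>
    (hf i).2.1 _ (hmem k i hki) x hx
  refine ⟨h, f, hh, ?_, hzero, ?_⟩
  · exact strictMono_nat_of_lt_succ fun n => (hf (n + 1)).1 _ (hmem n (n + 1) (Nat.lt_succ_self n))
  · intro j k hjk
    set n := f k with hn
    set F := cone C (fun n => (v n).support) h (f '' Ici j) with hF
    have hnu : ∀ i ∈ Finset.range k, nu (v n) (Npos C v h (f i)) ≤ e i := by
      intro i hi
      have hi' := Finset.mem_range.1 hi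
      exact (hf k).2.2.1 _ (hmem i k hi') i (Finset.mem_range.2 (by omega)) (hf i).2.2.2.1
    have hF0 : ∀ x ∈ (v n).support, h n x ≤ F x := by
      intro x hx
      have h1 := hh.le_cone (S := fun n => (v n).support) (E := f '' Ici j) hLC'
        (q := n) ⟨k, hjk, rfl⟩ (s := x) hx x
      rw [dist_self, mul_zero, sub_zero] at h1
      exact h1
    have hFH : ∀ x, F x ≤ H := fun x =>
      hh.cone_le_self hLC' hH.le fun q _ => hhH q x
    have hFx : ∀ x ∈ (v n).support, (∀ i ∈ Finset.range k, x ∉ Npos C v h (f i)) →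
        F x ≤ h n x := by
      intro x hx hxN
      refine cone_le (hh.nn n x) ?_
      rintro q ⟨i, hi, rfl⟩ s hs
      have hself : ∀ q, h q s - C * dist x s ≤ h q x := by
        intro q
        have h1 := (abs_le.1 (hh.lip q s x)).2
        rw [dist_comm] at h1
        have h2 : L * dist x s ≤ C * dist x s := mul_le_mul_of_nonneg_right hLC' dist_nonneg
        linarith
      rcases lt_trichotomy i k with hik | hik | hik
      · have h1 := hxN i (Finset.mem_range.2 hik)
        have h2 : ¬ (C * dist x s < h (f i) s) := fun hcon => h1 ⟨s, hs, hcon⟩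
        have h3 := hh.nn n x
        linarith [not_lt.1 h2]
      · rw [hik]
        exact hself n
      · have h1 := hself (f i)
        rw [hzero k i hik x hx] at h1
        exact h1.trans (hh.nn n x)
    have hdiff : ∀ x ∈ (v n).support, |v n x| * (F x - h n x) ≤
        ∑ i ∈ Finset.range k, H * (if x ∈ Npos C v h (f i) then |v n x| else 0) := by
      intro x hx
      by_cases hxN : ∀ i ∈ Finset.range k, x ∉ Npos C v h (f i)
      · have h1 := hFx x hx hxN
        have h2 : |v n x| * (F x - h n x) ≤ 0 :=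
          mul_nonpos_of_nonneg_of_nonpos (abs_nonneg _) (by linarith)
        refine h2.trans (Finset.sum_nonneg fun i _ => ?_)
        split_ifs
        · positivity
        · simp
      · push Not at hxN
        obtain ⟨i, hi, hxi⟩ := hxN
        have h1 : |v n x| * (F x - h n x) ≤ H * |v n x| := by
          have h2 := hFH x
          have h3 := hh.nn n x
          have h4 := abs_nonneg (v n x)
          nlinarith
        refine h1.trans ?_
        have h2 : H * |v n x| = H * (if x ∈ Npos C v h (f i) then |v n x| else 0) := by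
          rw [if_pos hxi]
        rw [h2]
        refine Finset.single_le_sum (f := fun i =>
          H * (if x ∈ Npos C v h (f i) then |v n x| else 0)) (fun i _ => ?_) hi
        split_ifs
        · positivity
        · simp
    have hs1 : pr (v n) (h n) - κ / 4 ≤ pr (v n) F := by
      have h1 : pr (v n) (h n) - pr (v n) F ≤ ∑ x ∈ (v n).support, |v n x| * (F x - h n x) := by
        unfold pr
        rw [← Finset.sum_sub_distrib]
        refine Finset.sum_le_sum fun x hx => ?_
        have h2 := hF0 x hx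
        have h3 := neg_abs_le (v n x)
        nlinarith
      have h2 : ∑ x ∈ (v n).support, |v n x| * (F x - h n x) ≤
          ∑ i ∈ Finset.range k, H * nu (v n) (Npos C v h (f i)) := by
        refine (Finset.sum_le_sum hdiff).trans ?_
        rw [Finset.sum_comm]
        refine Finset.sum_le_sum fun i _ => ?_
        rw [← Finset.mul_sum]
        unfold nu
        refine le_of_eq ?_
        congr 1
      have h3 : ∑ i ∈ Finset.range k, H * nu (v n) (Npos C v h (f i)) ≤
          ∑ i ∈ Finset.range k, κ / 4 * (1 / 2) ^ (i + 1) := by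
        refine Finset.sum_le_sum fun i hi => ?_
        have h4 := mul_le_mul_of_nonneg_left (hnu i hi) hH.le
        refine h4.trans (le_of_eq ?_)
        show H * (κ / (4 * H) * (1 / 2) ^ (i + 1)) = _
        field_simp
      have h5 : ∑ i ∈ Finset.range k, κ / 4 * (1 / 2 : ℝ) ^ (i + 1) ≤ κ / 4 := by
        rw [← Finset.mul_sum]
        have h6 : ∀ k : ℕ, ∑ i ∈ Finset.range k, (1 / 2 : ℝ) ^ (i + 1) = 1 - (1 / 2) ^ k := by
          intro k
          induction k with
          | zero => simp
          | succ k ih => rw [Finset.sum_range_succ, ih]; ring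
        rw [h6]
        have h7 : (0 : ℝ) ≤ (1 / 2) ^ k := by positivity
        nlinarith
      linarith
    have hs2 : pr (v n) (g n) - κ / 4 ≤ pr (v n) (h n) := by
      have h1 : pr (v n) (g n) - pr (v n) (h n) ≤ ∑ x ∈ (v n).support, |v n x| * θ := by
        unfold pr
        rw [← Finset.sum_sub_distrib]
        refine Finset.sum_le_sum fun x hx => ?_
        have h2 := hhg n x
        have h3 : g n x - θ ≤ h n x := le_max_right _ _
        have h4 := le_abs_self (v n x)
        have h5 := abs_nonneg (v n x)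
        nlinarith
      rw [← Finset.sum_mul] at h1
      have h2 := mul_le_mul_of_nonneg_right (hK n) hθ.le
      have h3 : K * θ = κ / 4 := by
        rw [hθdef]; field_simp
      linarith
    have hs3 := (hf k).2.2.2.2
    linarith

end Pool.Agent.H756QS
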