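import Pool.Agent.H756QS.CaseA

set_option autoImplicit false
set_option linter.unusedSectionVars false

/-!
Selection of a subsequence, functions escaping to infinity.
-/

noncomputable section

namespace Pool.Agent.H756QS

open Filter Set

variable {M : Type} [MetricSpace M]

theorem caseB (U : Ultrafilter ℕ) (hU : (U : Filter ℕ) ≤ cofinite) (o : M) (v : ℕ → M →₀ ℝ)
    (h : ℕ → M → ℝ) (L C : ℝ) (hL : 0 < L) (hLC : L ≤ C) (hh : Adm o L h)
    (hfar : ∀ R : ℝ, ∀ᶠ n in (U : Filter ℕ), ∀ x, dist x o ≤ R → h n x = 0) (κ : ℝ)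
    (ht : ∀ f : M → ℝ, f o = 0 → (∀ x y, |f x - f y| ≤ C * dist x y) →
      ∀ᶠ n in (U : Filter ℕ), |pr (v n) f| ≤ κ / 2)
    (hpr : ∀ᶠ n in (U : Filter ℕ), κ ≤ pr (v n) (h n)) :
    ∃ (f : ℕ → ℕ), StrictMono f ∧
      (∀ k i, k < i → ∀ x ∈ (v (f k)).support, h (f i) x = 0) ∧
      ∀ j k, j ≤ k → κ / 2 ≤ pr (v (f k)) (cone C (fun n => (v n).support) h (f '' Ici j)) := by
  classical
  have hC : 0 < C := by linarith
  set S : ℕ → Finset M := fun n => (v n).support with hS
  obtain ⟨f, hf⟩ := exists_seq (α := ℕ) (fun _ s n =>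
    (∀ p ∈ s, p < n) ∧ (∃ ρ : ℝ, (∀ p ∈ s, ∀ x ∈ (v p).support, dist x o ≤ ρ) ∧ 0 ≤ ρ ∧
      (∀ x, dist x o ≤ 2 * ρ → h n x = 0)) ∧
    (∀ E ∈ s.powerset, |pr (v n) (cone C S h (E : Set ℕ))| ≤ κ / 2) ∧
    κ ≤ pr (v n) (h n)) (by
      intro k s
      have e1 : ∀ᶠ n in (U : Filter ℕ), ∀ p ∈ s, p < n := by
        rw [Filter.eventually_all_finset]
        exact fun p _ => eventually_gt U hU p
      obtain ⟨ρ, hρ0, hρ⟩ : ∃ ρ : ℝ, 0 ≤ ρ ∧ ∀ p ∈ s, ∀ x ∈ (v p).support, dist x o ≤ ρ := by
        refine ⟨∑ p ∈ s, ∑ x ∈ (v p).support, dist x o, ?_, ?_⟩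
        · exact Finset.sum_nonneg fun p _ => Finset.sum_nonneg fun x _ => dist_nonneg
        · intro p hp x hx
          have h1 : dist x o ≤ ∑ x ∈ (v p).support, dist x o :=
            Finset.single_le_sum (f := fun x => dist x o) (fun _ _ => dist_nonneg) hx
          have h2 : ∑ x ∈ (v p).support, dist x o ≤ ∑ p ∈ s, ∑ x ∈ (v p).support, dist x o :=
            Finset.single_le_sum (f := fun p => ∑ x ∈ (v p).support, dist x o)
              (fun _ _ => Finset.sum_nonneg fun _ _ => dist_nonneg) hp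
          exact h1.trans h2
      have e2 := hfar (2 * ρ)
      have e3 : ∀ᶠ n in (U : Filter ℕ), ∀ E ∈ s.powerset,
          |pr (v n) (cone C S h (E : Set ℕ))| ≤ κ / 2 := by
        rw [Filter.eventually_all_finset]
        exact fun E _ => ht _ (hh.cone_base hL.le hLC) (hh.cone_lip hL.le hLC)
      obtain ⟨n, hn⟩ := (e1.and (e2.and (e3.and hpr))).exists
      exact ⟨n, hn.1, ⟨ρ, hρ, hρ0, hn.2.1⟩, hn.2.2.1, hn.2.2.2⟩)
  have hmem : ∀ k i, k < i → f k ∈ (Finset.range i).image f := fun k i hki =>
    Finset.mem_image.2 ⟨k, Finset.mem_range.2 hki, rfl⟩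
  have hzero : ∀ k i, k < i → ∀ x ∈ (v (f k)).support, h (f i) x = 0 := by
    intro k i hki x hx
    obtain ⟨ρ, hρ, hρ0, hρ2⟩ := (hf i).2.1
    refine hρ2 x ?_
    have := hρ _ (hmem k i hki) x hx
    linarith
  refine ⟨f, ?_, hzero, ?_⟩
  · exact strictMono_nat_of_lt_succ fun n => (hf (n + 1)).1 _ (hmem n (n + 1) (Nat.lt_succ_self n))
  · intro j k hjk
    set n := f k with hn
    set F := cone C S h (f '' Ici j) with hF
    set E : Finset ℕ := (Finset.Ico j k).image f with hE
    have hEs : E ∈ ((Finset.range k).image f).powerset := by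
      rw [Finset.mem_powerset, hE]
      refine Finset.image_subset_image fun i hi => ?_
      exact Finset.mem_range.2 (Finset.mem_Ico.1 hi).2
    have h1 := (hf k).2.2.1 E hEs
    obtain ⟨ρ, hρ, hρ0, hρ2⟩ := (hf k).2.1
    have hself : ∀ q x s, h q s - C * dist x s ≤ h q x := by
      intro q x s
      have h1 := (abs_le.1 (hh.lip q s x)).2
      rw [dist_comm] at h1
      have h2 : L * dist x s ≤ C * dist x s := mul_le_mul_of_nonneg_right hLC dist_nonneg
      linarith
    have hsub : (E : Set ℕ) ⊆ f '' Ici j := by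
      intro q hq
      rw [hE, Finset.coe_image] at hq
      obtain ⟨i, hi, rfl⟩ := hq
      exact ⟨i, (Finset.mem_Ico.1 hi).1, rfl⟩
    have hkey : ∀ x ∈ (v n).support, F x = cone C S h (E : Set ℕ) x + h n x := by
      intro x hx
      by_cases hxρ : dist x o ≤ 2 * ρ
      · rw [hρ2 x hxρ, add_zero]
        refine le_antisymm ?_ (hh.cone_mono hLC hsub x)
        refine cone_le (hh.cone_nonneg hLC x) ?_
        rintro q ⟨i, hi, rfl⟩ s hs
        rcases lt_trichotomy i k with hik | hik | hik
        · refine hh.le_cone hLC ?_ hs x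
          rw [hE, Finset.coe_image]
          exact ⟨i, Finset.mem_coe.2 (Finset.mem_Ico.2 ⟨hi, hik⟩), rfl⟩
        · have h2 := hself (f i) x s
          rw [hik, hρ2 x hxρ] at h2
          rw [hik]
          exact h2.trans (hh.cone_nonneg hLC x)
        · have h2 := hself (f i) x s
          rw [hzero k i hik x hx] at h2
          exact h2.trans (hh.cone_nonneg hLC x)
      · have hxρ' := not_le.1 hxρ
        have hold : ∀ i, i < k → ∀ s ∈ S (f i), h (f i) s - C * dist x s ≤ 0 := by
          intro i hik s hs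
          have h2 := hρ _ (hmem i k hik) s hs
          have h3 := hh.le_dist (f i) s
          have h4 : dist x o ≤ dist x s + dist s o := dist_triangle _ _ _
          have h5 : L * dist s o ≤ C * dist s o := mul_le_mul_of_nonneg_right hLC dist_nonneg
          have h6 : C * dist s o ≤ C * dist x s := mul_le_mul_of_nonneg_left (by linarith) hC.le
          linarith
        have hE0 : cone C S h (E : Set ℕ) x = 0 := by
          refine le_antisymm (cone_le le_rfl ?_) (hh.cone_nonneg hLC x)
          intro q hq s hs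
          rw [hE, Finset.coe_image] at hq
          obtain ⟨i, hi, rfl⟩ := hq
          exact hold i (Finset.mem_Ico.1 hi).2 s hs
        rw [hE0, zero_add]
        refine le_antisymm (cone_le (hh.nn _ _) ?_) ?_
        · rintro q ⟨i, hi, rfl⟩ s hs
          rcases lt_trichotomy i k with hik | hik | hik
          · exact (hold i hik s hs).trans (hh.nn _ _)
          · rw [hik]
            exact hself _ _ _
          · have h2 := hself (f i) x s
            rw [hzero k i hik x hx] at h2
            exact h2.trans (hh.nn _ _)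
        · have h2 := hh.le_cone (S := S) (E := f '' Ici j) hLC
            (q := n) ⟨k, hjk, rfl⟩ (s := x) hx x
          rw [dist_self, mul_zero, sub_zero] at h2
          exact h2
    rw [pr_congr _ hkey, pr_add]
    have h2 := (hf k).2.2.2
    have h3 := (abs_le.1 h1).1
    linarith

end Pool.Agent.H756QS
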