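import Mathlib

set_option autoImplicit false

/-!
Suprema of cones over a metric space, selection of subsequences along an ultrafilter, and the
pairing of finitely supported measures with functions.
-/

set_option linter.unusedSectionVars false

noncomputable section

namespace Pool.Agent.H756QS

open Filter Set

variable {M : Type} [MetricSpace M] {ι : Type}

/-- Data for a supremum of cones: nonnegative functions with Lipschitz constant `L` vanishing at
the base point. -/
structure Adm (o : M) (L : ℝ) (h : ι → M → ℝ) : Prop where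
  nn : ∀ q x, 0 ≤ h q x
  lip : ∀ q x y, |h q x - h q y| ≤ L * dist x y
  base : ∀ q, h q o = 0

open Classical in
/-- one term -/
def cterm (C : ℝ) (S : ι → Finset M) (h : ι → M → ℝ) (E : Set ι) (x : M) (q : ι × M) : ℝ :=
  if q.1 ∈ E ∧ q.2 ∈ S q.1 then max 0 (h q.1 q.2 - C * dist x q.2) else 0

/-- supremum of the cones of slope `C` over the points of `S q`, `q ∈ E`, with heights `h q`. -/
def cone (C : ℝ) (S : ι → Finset M) (h : ι → M → ℝ) (E : Set ι) (x : M) : ℝ :=
  ⨆ q : ι × M, cterm C S h E x q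

variable {o : M} {L C : ℝ} {h : ι → M → ℝ} {S : ι → Finset M} {E : Set ι}

theorem cterm_nonneg (x : M) (q : ι × M) : 0 ≤ cterm C S h E x q := by
  unfold cterm
  split_ifs
  · exact le_max_left _ _
  · exact le_rfl

theorem Adm.le_dist (H : Adm o L h) (q : ι) (x : M) : h q x ≤ L * dist x o := by
  have h1 := H.lip q x o
  rw [H.base, sub_zero] at h1
  exact (le_abs_self _).trans h1

theorem Adm.cterm_le (H : Adm o L h) (hLC : L ≤ C) (x : M) (q : ι × M) :
    cterm C S h E x q ≤ h q.1 x := by
  unfold cterm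
  split_ifs with hq
  · refine max_le (H.nn _ _) ?_
    have h1 := (abs_le.1 (H.lip q.1 q.2 x)).2
    rw [dist_comm] at h1
    have h2 : L * dist x q.2 ≤ C * dist x q.2 := mul_le_mul_of_nonneg_right hLC dist_nonneg
    linarith
  · exact H.nn _ _

theorem Adm.bdd (H : Adm o L h) (hLC : L ≤ C) (x : M) :
    BddAbove (range (cterm C S h E x)) := by
  refine ⟨L * dist x o, ?_⟩
  rintro _ ⟨q, rfl⟩
  exact (H.cterm_le hLC x q).trans (H.le_dist _ _)

theorem Adm.le_cone (H : Adm o L h) (hLC : L ≤ C) {q : ι} (hq : q ∈ E) {s : M} (hs : s ∈ S q)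
    (x : M) : h q s - C * dist x s ≤ cone C S h E x := by
  refine le_trans ?_ (le_ciSup (H.bdd hLC x) (q, s))
  unfold cterm
  rw [if_pos ⟨hq, hs⟩]
  exact le_max_right _ _

theorem Adm.cone_nonneg (_H : Adm o L h) (_hLC : L ≤ C) (x : M) : 0 ≤ cone C S h E x := by
  unfold cone
  exact Real.iSup_nonneg fun q => cterm_nonneg _ _

theorem cone_le [Nonempty ι] {x : M} {a : ℝ} (ha : 0 ≤ a)
    (hle : ∀ q ∈ E, ∀ s ∈ S q, h q s - C * dist x s ≤ a) : cone C S h E x ≤ a := by
  have : Nonempty M := ⟨x⟩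
  unfold cone
  refine ciSup_le fun q => ?_
  unfold cterm
  split_ifs with hq
  · exact max_le ha (hle _ hq.1 _ hq.2)
  · exact ha

theorem Adm.cone_le_self [Nonempty ι] (H : Adm o L h) (hLC : L ≤ C) {x : M} {a : ℝ} (ha : 0 ≤ a)
    (hle : ∀ q ∈ E, h q x ≤ a) : cone C S h E x ≤ a := by
  have : Nonempty M := ⟨x⟩
  unfold cone
  refine ciSup_le fun q => ?_
  by_cases hq : q.1 ∈ E
  · exact (H.cterm_le hLC x q).trans (hle _ hq)
  · unfold cterm
    rw [if_neg (fun hh => hq hh.1)]
    exact ha

theorem Adm.cone_le_dist [Nonempty ι] (H : Adm o L h) (hL : 0 ≤ L) (hLC : L ≤ C) (x : M) :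
    cone C S h E x ≤ L * dist x o :=
  H.cone_le_self hLC (by positivity) fun q _ => H.le_dist q x

theorem Adm.cone_base [Nonempty ι] (H : Adm o L h) (hL : 0 ≤ L) (hLC : L ≤ C) :
    cone C S h E o = 0 := by
  refine le_antisymm ?_ (H.cone_nonneg hLC o)
  have := H.cone_le_dist (S := S) (E := E) hL hLC o
  simpa using this

theorem Adm.cone_lip [Nonempty ι] (H : Adm o L h) (hL : 0 ≤ L) (hLC : L ≤ C) (x y : M) :
    |cone C S h E x - cone C S h E y| ≤ C * dist x y := by
  have key : ∀ x y : M, cone C S h E x ≤ cone C S h E y + C * dist x y := by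
    intro x y
    have hC : 0 ≤ C := hL.trans hLC
    refine cone_le (add_nonneg (H.cone_nonneg hLC y) (by positivity)) fun q hq s hs => ?_
    have h1 := H.le_cone (S := S) (E := E) hLC hq hs y
    have h2 : dist y s ≤ dist x y + dist x s := by
      rw [dist_comm x y]; exact dist_triangle _ _ _
    have h3 : C * dist y s ≤ C * (dist x y + dist x s) := mul_le_mul_of_nonneg_left h2 hC
    nlinarith
  rw [abs_le]
  constructor
  · have := key y x
    rw [dist_comm] at this
    linarith
  · have := key x y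
    linarith

theorem Adm.cone_mono [Nonempty ι] (H : Adm o L h) (hLC : L ≤ C) {E E' : Set ι} (hE : E ⊆ E')
    (x : M) : cone C S h E x ≤ cone C S h E' x :=
  cone_le (H.cone_nonneg hLC x) fun _ hq _ hs => H.le_cone hLC (hE hq) hs x

/-- selection of a sequence with conditions depending on the set of earlier terms -/
theorem exists_seq {α : Type} [DecidableEq α] (Q : ℕ → Finset α → α → Prop)
    (hQ : ∀ n s, ∃ y, Q n s y) :
    ∃ f : ℕ → α, ∀ n, Q n ((Finset.range n).image f) (f n) := by
  choose c hc using hQ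
  let g : ℕ → Finset α := fun n => Nat.rec ∅ (fun n s => insert (c n s) s) n
  have g0 : g 0 = ∅ := rfl
  have gs : ∀ n, g (n + 1) = insert (c n (g n)) (g n) := fun n => rfl
  have hg : ∀ n, g n = (Finset.range n).image (fun n => c n (g n)) := by
    intro n
    induction n with
    | zero => simp [g0]
    | succ n ih =>
      rw [gs, Finset.range_add_one, Finset.image_insert, ← ih]
  refine ⟨fun n => c n (g n), fun n => ?_⟩
  rw [← hg n]
  exact hc n (g n)

/-- the pairing -/
def pr (v : M →₀ ℝ) (f : M → ℝ) : ℝ := ∑ x ∈ v.support, v x * f x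

theorem pr_add (v : M →₀ ℝ) (f g : M → ℝ) : pr v (fun x => f x + g x) = pr v f + pr v g := by
  unfold pr
  rw [← Finset.sum_add_distrib]
  exact Finset.sum_congr rfl fun x _ => by ring

theorem pr_sub (v : M →₀ ℝ) (f g : M → ℝ) : pr v (fun x => f x - g x) = pr v f - pr v g := by
  unfold pr
  rw [← Finset.sum_sub_distrib]
  exact Finset.sum_congr rfl fun x _ => by ring

theorem pr_smul (v : M →₀ ℝ) (c : ℝ) (f : M → ℝ) : pr v (fun x => c * f x) = c * pr v f := by
  unfold pr
  rw [Finset.mul_sum]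
  exact Finset.sum_congr rfl fun x _ => by ring

theorem pr_congr (v : M →₀ ℝ) {f g : M → ℝ} (hfg : ∀ x ∈ v.support, f x = g x) :
    pr v f = pr v g :=
  Finset.sum_congr rfl fun x hx => by rw [hfg x hx]

open Classical in
/-- the mass of `|v|` on a set -/
def nu (v : M →₀ ℝ) (N : Set M) : ℝ := ∑ x ∈ v.support, if x ∈ N then |v x| else 0

theorem nu_nonneg (v : M →₀ ℝ) (N : Set M) : 0 ≤ nu v N := by
  unfold nu
  refine Finset.sum_nonneg fun x _ => ?_
  split_ifs
  · exact abs_nonneg _
  · exact le_rfl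

theorem nu_union_le (v : M →₀ ℝ) (A B : Set M) : nu v (A ∪ B) ≤ nu v A + nu v B := by
  unfold nu
  rw [← Finset.sum_add_distrib]
  refine Finset.sum_le_sum fun x _ => ?_
  have := abs_nonneg (v x)
  by_cases h1 : x ∈ A <;> by_cases h2 : x ∈ B <;> simp [h1, h2]

theorem nu_mono (v : M →₀ ℝ) {A B : Set M} (hAB : A ⊆ B) : nu v A ≤ nu v B := by
  unfold nu
  refine Finset.sum_le_sum fun x _ => ?_
  have := abs_nonneg (v x)
  by_cases h1 : x ∈ A
  · simp [h1, hAB h1]
  · by_cases h2 : x ∈ B <;> simp [h1, h2]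

theorem nu_biUnion_le {κ : Type} (v : M →₀ ℝ) (I : Finset κ) (N : κ → Set M) :
    nu v (⋃ i ∈ I, N i) ≤ ∑ i ∈ I, nu v (N i) := by
  classical
  induction I using Finset.induction_on with
  | empty => simp [nu]
  | insert a I ha ih =>
    rw [Finset.sum_insert ha, Finset.set_biUnion_insert]
    exact (nu_union_le _ _ _).trans (by linarith)

/-- disjoint sets carry total mass at most the total variation -/
theorem sum_nu_le {κ : Type} (v : M →₀ ℝ) (I : Finset κ) (N : κ → Set M)
    (hd : ∀ i ∈ I, ∀ j ∈ I, i ≠ j → Disjoint (N i) (N j)) :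
    ∑ i ∈ I, nu v (N i) ≤ ∑ x ∈ v.support, |v x| := by
  classical
  unfold nu
  rw [Finset.sum_comm]
  refine Finset.sum_le_sum fun x _ => ?_
  by_cases hx : ∃ i ∈ I, x ∈ N i
  · obtain ⟨i, hi, hxi⟩ := hx
    rw [Finset.sum_eq_single i]
    · simp [hxi]
    · intro j hj hji
      rw [if_neg]
      intro hxj
      exact (Set.disjoint_left.1 (hd i hi j hj (Ne.symm hji))) hxi hxj
    · intro h; exact absurd hi h
  · push Not at hx
    rw [Finset.sum_eq_zero]
    · exact abs_nonneg _
    · intro i hi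
      rw [if_neg (hx i hi)]

/-- If the sets `N p` are, along the ultrafilter, disjoint from each given `N p`, then most of
them carry a small mass of most of the measures. -/
theorem small_mass (U : Ultrafilter ℕ) (hU : (U : Filter ℕ) ≤ cofinite) (v : ℕ → M →₀ ℝ) (K : ℝ)
    (hK : ∀ n, ∑ x ∈ (v n).support, |v n x| ≤ K) (N : ℕ → Set M)
    (hN : ∀ p, ∀ᶠ p' in (U : Filter ℕ), Disjoint (N p) (N p')) (η : ℝ) (hη : 0 < η) :
    ∀ᶠ p in (U : Filter ℕ), ∀ᶠ n in (U : Filter ℕ), nu (v n) (N p) ≤ η := by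
  by_contra hcon
  rw [← Ultrafilter.eventually_not] at hcon
  have hcon' : ∀ᶠ p in (U : Filter ℕ), ∀ᶠ n in (U : Filter ℕ), η < nu (v n) (N p) := by
    filter_upwards [hcon] with p hp
    rw [← Ultrafilter.eventually_not] at hp
    filter_upwards [hp] with n hn
    exact not_le.1 hn
  have key : ∀ l : ℕ, ∃ I : Finset ℕ, I.card = l ∧
      (∀ i ∈ I, ∀ᶠ n in (U : Filter ℕ), η < nu (v n) (N i)) ∧
      (∀ i ∈ I, ∀ j ∈ I, i ≠ j → Disjoint (N i) (N j)) := by
    intro l
    induction l with
    | zero => exact ⟨∅, by simp⟩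
    | succ l ih =>
      obtain ⟨I, hcard, hI1, hI2⟩ := ih
      have h1 : ∀ᶠ p in (U : Filter ℕ), ∀ i ∈ I, Disjoint (N i) (N p) := by
        rw [Filter.eventually_all_finset]
        exact fun i _ => hN i
      have h2 : ∀ᶠ p in (U : Filter ℕ), p ∉ I := by
        apply hU
        rw [Filter.mem_cofinite]
        have : {p | p ∉ I}ᶜ = (I : Set ℕ) := by ext p; simp
        rw [this]
        exact I.finite_toSet
      obtain ⟨p, hp1, hp2, hp3⟩ := (h1.and (h2.and hcon')).exists
      refine ⟨insert p I, ?_, ?_, ?_⟩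
      · rw [Finset.card_insert_of_notMem hp2, hcard]
      · intro i hi
        rcases Finset.mem_insert.1 hi with rfl | hi
        · exact hp3
        · exact hI1 i hi
      · intro i hi j hj hij
        rcases Finset.mem_insert.1 hi with hi' | hi'
        · rcases Finset.mem_insert.1 hj with hj' | hj'
          · exact absurd (hi'.trans hj'.symm) hij
          · rw [hi']
            exact (hp1 j hj').symm
        · rcases Finset.mem_insert.1 hj with hj' | hj'
          · rw [hj']
            exact hp1 i hi'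
          · exact hI2 i hi' j hj' hij
  obtain ⟨l, hl⟩ := exists_nat_gt (K / η)
  obtain ⟨I, hcard, hI1, hI2⟩ := key l
  have h1 : ∀ᶠ n in (U : Filter ℕ), ∀ i ∈ I, η < nu (v n) (N i) := by
    rw [Filter.eventually_all_finset]
    exact hI1
  obtain ⟨n, hn⟩ := h1.exists
  have h2 : ∑ i ∈ I, η ≤ ∑ i ∈ I, nu (v n) (N i) := Finset.sum_le_sum fun i hi => (hn i hi).le
  rw [Finset.sum_const, hcard, nsmul_eq_mul] at h2
  have h3 := (sum_nu_le (v n) I N hI2).trans (hK n)
  rw [div_lt_iff₀ hη] at hl
  linarith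

end Pool.Agent.H756QS
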