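import Pool.Agent.H756QS.CaseB

set_option autoImplicit false
set_option linter.unusedSectionVars false

/-!
The extraction theorem for finitely supported measures.
-/

noncomputable section

namespace Pool.Agent.H756QS

open Filter Set Topology

variable {M : Type} [MetricSpace M]

/-- the final step: subtract the limit of the cone functions -/
theorem finalD (o : M) (v : ℕ → M →₀ ℝ) (h : ℕ → M → ℝ) (L C : ℝ) (hL : 0 < L) (hLC : L ≤ C)
    (hh : Adm o L h) (f : ℕ → ℕ) (κ : ℝ)
    (hz : ∀ k i, k < i → ∀ x ∈ (v (f k)).support, h (f i) x = 0)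
    (hp : ∀ j k, j ≤ k → κ ≤ pr (v (f k)) (cone C (fun n => (v n).support) h (f '' Ici j))) :
    ∃ D : ℕ → M → ℝ, (∀ j, D j o = 0) ∧ (∀ j x y, |D j x - D j y| ≤ (2 * C) * dist x y) ∧
      (∀ x, Tendsto (fun j => D j x) atTop (𝓝 0)) ∧ ∀ j k, j ≤ k → κ ≤ pr (v (f k)) (D j) := by
  set c : ℕ → M → ℝ := fun j => cone C (fun n => (v n).support) h (f '' Ici j) with hc
  have hanti : ∀ x, Antitone fun j => c j x := by
    intro x i j hij
    refine hh.cone_mono hLC ?_ x
    exact image_mono (Ici_subset_Ici.2 hij)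
  have hnn : ∀ j x, 0 ≤ c j x := fun j x => hh.cone_nonneg hLC x
  have hbdd : ∀ x, BddBelow (range fun j => c j x) := by
    intro x
    refine ⟨0, ?_⟩
    rintro _ ⟨j, rfl⟩
    exact hnn j x
  set I : M → ℝ := fun x => ⨅ j, c j x with hI
  have hlim : ∀ x, Tendsto (fun j => c j x) atTop (𝓝 (I x)) := fun x =>
    tendsto_atTop_ciInf (hanti x) (hbdd x)
  have hclip : ∀ j x y, |c j x - c j y| ≤ C * dist x y := fun j => hh.cone_lip hL.le hLC
  have hIlip : ∀ x y, |I x - I y| ≤ C * dist x y := by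
    intro x y
    have h1 : Tendsto (fun j => |c j x - c j y|) atTop (𝓝 |I x - I y|) :=
      ((hlim x).sub (hlim y)).abs
    exact le_of_tendsto' h1 fun j => hclip j x y
  have hco : ∀ j, c j o = 0 := fun j => hh.cone_base hL.le hLC
  have hIo : I o = 0 := by
    have h1 := hlim o
    simp only [hco] at h1
    exact tendsto_nhds_unique h1 tendsto_const_nhds
  have hI0 : ∀ k, ∀ x ∈ (v (f k)).support, I x = 0 := by
    intro k x hx
    refine le_antisymm ?_ ?_
    · refine (ciInf_le (hbdd x) (k + 1)).trans ?_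
      refine hh.cone_le_self hLC le_rfl ?_
      rintro q ⟨i, hi, rfl⟩
      exact (hz k i (Nat.lt_of_succ_le hi) x hx).le
    · exact le_ciInf fun j => hnn j x
  refine ⟨fun j x => c j x - I x, fun j => by simp only [hco, hIo, sub_zero], ?_, ?_, ?_⟩
  · intro j x y
    have h1 := hclip j x y
    have h2 := hIlip x y
    have h3 : c j x - I x - (c j y - I y) = (c j x - c j y) - (I x - I y) := by ring
    rw [h3]
    refine (abs_sub _ _).trans ?_
    linarith
  · intro x
    have h1 := (hlim x).sub (tendsto_const_nhds (x := I x))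
    simpa using h1
  · intro j k hjk
    have h1 := hp j k hjk
    rw [pr_sub, pr_congr (v (f k)) (g := fun _ => 0) (hI0 k)]
    have h2 : pr (v (f k)) (fun _ => (0 : ℝ)) = 0 := by simp [pr]
    rw [h2, sub_zero]
    exact h1

/-- cut-off function -/
def phi (o : M) (R : ℝ) (x : M) : ℝ := max 0 (min 1 (2 - dist x o / R))

theorem phi_nonneg (o : M) (R : ℝ) (x : M) : 0 ≤ phi o R x := le_max_left _ _

theorem phi_le_one (o : M) (R : ℝ) (x : M) : phi o R x ≤ 1 :=
  max_le zero_le_one (min_le_left _ _)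

theorem phi_near (o : M) {R : ℝ} (hR : 0 < R) {x : M} (hx : dist x o ≤ R) : phi o R x = 1 := by
  unfold phi
  have h1 : dist x o / R ≤ 1 := by rw [div_le_one hR]; exact hx
  rw [min_eq_left (by linarith)]
  exact max_eq_right zero_le_one

theorem phi_far (o : M) {R : ℝ} (hR : 0 < R) {x : M} (hx : 2 * R ≤ dist x o) : phi o R x = 0 := by
  unfold phi
  have h1 : 2 ≤ dist x o / R := by rw [le_div_iff₀ hR]; exact hx
  exact max_eq_left ((min_le_right _ _).trans (by linarith))

theorem phi_lip (o : M) {R : ℝ} (hR : 0 < R) (x y : M) :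
    |phi o R x - phi o R y| ≤ dist x y / R := by
  unfold phi
  have h1 := abs_max_sub_max_le_abs (min 1 (2 - dist x o / R)) (min 1 (2 - dist y o / R)) 0
  rw [max_comm _ (0 : ℝ), max_comm _ (0 : ℝ)] at h1
  refine h1.trans ?_
  have h2 := abs_min_sub_min_le_max (1 : ℝ) (2 - dist x o / R) 1 (2 - dist y o / R)
  refine h2.trans ?_
  rw [sub_self, abs_zero]
  refine max_le (by positivity) ?_
  have h3 : 2 - dist x o / R - (2 - dist y o / R) = (dist y o - dist x o) / R := by ring
  rw [h3, abs_div, abs_of_pos hR]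
  refine div_le_div_of_nonneg_right ?_ hR.le
  have h4 := abs_dist_sub_le y x o
  rw [dist_comm x y]
  exact h4

theorem phi_mul_lip (o : M) {R : ℝ} (hR : 0 < R) (f : M → ℝ) (L : ℝ) (hL : 0 ≤ L) (h0 : f o = 0)
    (hf : ∀ x y, |f x - f y| ≤ L * dist x y) (x y : M) :
    |phi o R x * f x - phi o R y * f y| ≤ (3 * L) * dist x y := by
  have hfb : ∀ x, |f x| ≤ L * dist x o := by
    intro x
    have := hf x o
    rwa [h0, sub_zero] at this
  have key : ∀ x y : M, dist y o ≤ 2 * R →
      |phi o R x * f x - phi o R y * f y| ≤ (3 * L) * dist x y := by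
    intro x y hy
    have h1 : phi o R x * f x - phi o R y * f y =
        phi o R x * (f x - f y) + f y * (phi o R x - phi o R y) := by ring
    rw [h1]
    refine (abs_add_le _ _).trans ?_
    rw [abs_mul, abs_mul, abs_of_nonneg (phi_nonneg o R x)]
    have h2 := hf x y
    have h3 := phi_lip o hR x y
    have h4 : |f y| ≤ L * (2 * R) := (hfb y).trans (mul_le_mul_of_nonneg_left hy hL)
    have h5 : phi o R x * |f x - f y| ≤ 1 * (L * dist x y) :=
      mul_le_mul (phi_le_one o R x) h2 (abs_nonneg _) zero_le_one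
    have h6 : |f y| * |phi o R x - phi o R y| ≤ L * (2 * R) * (dist x y / R) :=
      mul_le_mul h4 h3 (abs_nonneg _) (by positivity)
    have h7 : L * (2 * R) * (dist x y / R) = 2 * L * dist x y := by field_simp
    linarith
  by_cases hy : dist y o ≤ 2 * R
  · exact key x y hy
  · by_cases hx : dist x o ≤ 2 * R
    · have := key y x hx
      rw [abs_sub_comm, dist_comm]
      exact this
    · rw [phi_far o hR (not_le.1 hy).le, phi_far o hR (not_le.1 hx).le]
      simp only [zero_mul, sub_self, abs_zero]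
      positivity

/-- extraction for nonnegative functions -/
theorem extract_pos (U : Ultrafilter ℕ) (hU : (U : Filter ℕ) ≤ cofinite) (o : M) (ε : ℝ)
    (hε : 0 < ε) (hsep : ∀ x y : M, x ≠ y → ε ≤ dist x y) (v : ℕ → M →₀ ℝ) (K : ℝ) (hK0 : 0 < K)
    (hK : ∀ n, ∑ x ∈ (v n).support, |v n x| ≤ K) (h : ℕ → M → ℝ) (hh : Adm o 2 h)
    (hlim : ∀ x, ∀ θ : ℝ, 0 < θ → ∀ᶠ n in (U : Filter ℕ), h n x ≤ θ) (κ : ℝ) (hκ : 0 < κ)
    (ht : ∀ f : M → ℝ, f o = 0 → (∀ x y, |f x - f y| ≤ 40 * dist x y) →
      ∀ᶠ n in (U : Filter ℕ), |pr (v n) f| ≤ κ / 4)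
    (hpr : ∀ᶠ n in (U : Filter ℕ), κ ≤ pr (v n) (h n)) :
    ∃ (m : ℕ → ℕ) (D : ℕ → M → ℝ), StrictMono m ∧ (∀ j, D j o = 0) ∧
      (∀ j x y, |D j x - D j y| ≤ 80 * dist x y) ∧
      (∀ x, Tendsto (fun j => D j x) atTop (𝓝 0)) ∧
      ∀ j k, j ≤ k → κ / 4 ≤ pr (v (m k)) (D j) := by
  classical
  by_cases hA : ∃ R : ℝ, 0 < R ∧
      ∀ᶠ n in (U : Filter ℕ), κ / 2 ≤ pr (v n) (fun x => phi o R x * h n x)
  · obtain ⟨R, hR, hA⟩ := hA
    have hg : Adm o 8 (fun n x => phi o R x * h n x) := by
      refine ⟨fun n x => mul_nonneg (phi_nonneg o R x) (hh.nn n x), fun n x y => ?_, fun n => ?_⟩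
      · refine (phi_mul_lip o hR (h n) 2 (by norm_num) (hh.base n) (hh.lip n) x y).trans ?_
        have := dist_nonneg (x := x) (y := y)
        linarith
      · show phi o R o * h n o = 0
        rw [hh.base, mul_zero]
    obtain ⟨h', f, hadm, hf, hz, hp⟩ := caseA U hU o ε hε hsep v K hK0 hK
      (fun n x => phi o R x * h n x) 8 40 (4 * R) (by norm_num) (by norm_num) hg (by positivity)
      (fun n x => by
        by_cases hx : 2 * R ≤ dist x o
        · rw [phi_far o hR hx, zero_mul]; positivity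
        · have h1 := hh.le_dist n x
          have h2 := not_le.1 hx
          calc phi o R x * h n x ≤ 1 * h n x :=
                mul_le_mul_of_nonneg_right (phi_le_one o R x) (hh.nn n x)
            _ ≤ 4 * R := by linarith)
      (fun x θ hθ => by
        filter_upwards [hlim x θ hθ] with n hn
        calc phi o R x * h n x ≤ 1 * h n x :=
              mul_le_mul_of_nonneg_right (phi_le_one o R x) (hh.nn n x)
          _ ≤ θ := by linarith)
      (κ / 2) (by positivity) hA
    obtain ⟨D, hD0, hDl, hDt, hDp⟩ := finalD o v h' 8 40 (by norm_num) (by norm_num) hadm f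
      (κ / 2 / 2) hz hp
    refine ⟨f, D, hf, hD0, fun j x y => ?_, hDt, fun j k hjk => ?_⟩
    · have := hDl j x y
      norm_num at this
      exact this
    · have := hDp j k hjk
      linarith
  · push Not at hA
    have hB : ∀ R : ℝ, 0 < R →
        ∀ᶠ n in (U : Filter ℕ), κ / 2 ≤ pr (v n) (fun x => h n x - phi o R x * h n x) := by
      intro R hR
      filter_upwards [hA R hR, hpr] with n hn1 hn2
      rw [pr_sub]
      linarith
    let P : ℕ → ℕ → Prop := fun n R =>
      κ / 2 ≤ pr (v n) (fun x => h n x - phi o ((R : ℝ) + 1) x * h n x)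
    let r : ℕ → ℕ := fun n => Nat.findGreatest (P n) n
    have hPe : ∀ R : ℕ, ∀ᶠ n in (U : Filter ℕ), P n R := fun R => hB _ (by positivity)
    have hr : ∀ R : ℕ, ∀ᶠ n in (U : Filter ℕ), R ≤ r n := by
      intro R
      filter_upwards [hPe R, eventually_gt U hU R] with n hn1 hn2
      exact Nat.le_findGreatest hn2.le hn1
    have hrP : ∀ᶠ n in (U : Filter ℕ), P n (r n) := by
      filter_upwards [hPe 0] with n hn
      exact Nat.findGreatest_spec (Nat.zero_le n) hn
    set h' : ℕ → M → ℝ := fun n x => h n x - phi o ((r n : ℝ) + 1) x * h n x with hh'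
    have hadm : Adm o 8 h' := by
      refine ⟨fun n x => ?_, fun n x y => ?_, fun n => ?_⟩
      · have h1 := phi_le_one o ((r n : ℝ) + 1) x
        have h2 := hh.nn n x
        have h3 : phi o ((r n : ℝ) + 1) x * h n x ≤ 1 * h n x :=
          mul_le_mul_of_nonneg_right h1 h2
        show 0 ≤ h n x - phi o ((r n : ℝ) + 1) x * h n x
        linarith
      · have h1 := phi_mul_lip o (R := (r n : ℝ) + 1) (by positivity) (h n) 2 (by norm_num)
          (hh.base n) (hh.lip n) x y
        have h2 := hh.lip n x y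
        have h3 : h' n x - h' n y = (h n x - h n y) -
            (phi o ((r n : ℝ) + 1) x * h n x - phi o ((r n : ℝ) + 1) y * h n y) := by
          rw [hh']; ring
        rw [h3]
        refine (abs_sub _ _).trans ?_
        linarith
      · show h n o - phi o ((r n : ℝ) + 1) o * h n o = 0
        rw [hh.base]; ring
    have hfar : ∀ R : ℝ, ∀ᶠ n in (U : Filter ℕ), ∀ x, dist x o ≤ R → h' n x = 0 := by
      intro R
      obtain ⟨R', hR'⟩ := exists_nat_ge R
      filter_upwards [hr R'] with n hn x hx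
      have h1 : (R' : ℝ) ≤ r n := Nat.cast_le.2 hn
      have h2 : phi o ((r n : ℝ) + 1) x = 1 := phi_near o (by positivity) (by linarith)
      show h n x - phi o ((r n : ℝ) + 1) x * h n x = 0
      rw [h2]; ring
    obtain ⟨f, hf, hz, hp⟩ := caseB U hU o v h' 8 40 (by norm_num) (by norm_num) hadm hfar
      (κ / 2) (fun f hf0 hf => by
        filter_upwards [ht f hf0 hf] with n hn
        linarith) hrP
    obtain ⟨D, hD0, hDl, hDt, hDp⟩ := finalD o v h' 8 40 (by norm_num) (by norm_num) hadm f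
      (κ / 2 / 2) hz hp
    refine ⟨f, D, hf, hD0, fun j x y => ?_, hDt, fun j k hjk => ?_⟩
    · have := hDl j x y
      norm_num at this
      exact this
    · have := hDp j k hjk
      linarith

theorem pr_neg_left (v : M →₀ ℝ) (f : M → ℝ) : pr (-v) f = - pr v f := by
  unfold pr
  rw [Finsupp.support_neg, ← Finset.sum_neg_distrib]
  exact Finset.sum_congr rfl fun x _ => by
    rw [Finsupp.neg_apply]; ring

theorem pr_neg (v : M →₀ ℝ) (f : M → ℝ) : pr v (fun x => - f x) = - pr v f := by
  unfold pr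
  rw [← Finset.sum_neg_distrib]
  exact Finset.sum_congr rfl fun x _ => by ring

/-- The extraction theorem for finitely supported measures. -/
theorem extract (U : Ultrafilter ℕ) (hU : (U : Filter ℕ) ≤ cofinite) (o : M) (ε : ℝ)
    (hε : 0 < ε) (hsep : ∀ x y : M, x ≠ y → ε ≤ dist x y) (v : ℕ → M →₀ ℝ) (K : ℝ) (hK0 : 0 < K)
    (hK : ∀ n, ∑ x ∈ (v n).support, |v n x| ≤ K) (f : ℕ → M → ℝ) (hf0 : ∀ n, f n o = 0)
    (hf : ∀ n x y, |f n x - f n y| ≤ dist x y) (κ : ℝ) (hκ : 0 < κ)
    (ht : ∀ f : M → ℝ, f o = 0 → (∀ x y, |f x - f y| ≤ dist x y) →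
      ∀ᶠ n in (U : Filter ℕ), |pr (v n) f| ≤ κ / 640)
    (hpr : ∀ᶠ n in (U : Filter ℕ), κ ≤ pr (v n) (f n)) :
    ∃ (m : ℕ → ℕ) (D : ℕ → M → ℝ), StrictMono m ∧ (∀ j, D j o = 0) ∧
      (∀ j x y, |D j x - D j y| ≤ 80 * dist x y) ∧
      (∀ x, Tendsto (fun j => D j x) atTop (𝓝 0)) ∧
      ∀ j k, j ≤ k → κ / 16 ≤ pr (v (m k)) (D j) := by
  have hfb : ∀ n x, |f n x| ≤ dist x o := by
    intro n x
    have := hf n x o
    rwa [hf0, sub_zero] at this
  -- the limit function
  have hex : ∀ x, ∃ y, Tendsto (fun n => f n x) (U : Filter ℕ) (𝓝 y) := by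
    intro x
    have hc : IsCompact (Icc (-(dist x o)) (dist x o)) := isCompact_Icc
    obtain ⟨y, _, hy⟩ := hc.ultrafilter_le_nhds (U.map fun n => f n x) (by
      rw [le_principal_iff, Ultrafilter.mem_coe, Ultrafilter.mem_map]
      refine Filter.univ_mem' fun n => ?_
      exact abs_le.1 (hfb n x))
    exact ⟨y, hy⟩
  choose F hF using hex
  have hF0 : F o = 0 := by
    have h1 := hF o
    simp only [hf0] at h1
    exact tendsto_nhds_unique h1 tendsto_const_nhds
  have hFl : ∀ x y, |F x - F y| ≤ dist x y := by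
    intro x y
    have h1 : Tendsto (fun n => |f n x - f n y|) (U : Filter ℕ) (𝓝 |F x - F y|) :=
      ((hF x).sub (hF y)).abs
    exact le_of_tendsto' h1 fun n => hf n x y
  have ht40 : ∀ f : M → ℝ, f o = 0 → (∀ x y, |f x - f y| ≤ 40 * dist x y) →
      ∀ᶠ n in (U : Filter ℕ), |pr (v n) f| ≤ κ / 4 / 4 := by
    intro f hf0 hfl
    have h1 := ht (fun x => (1 / 40) * f x) (by simp [hf0]) (fun x y => by
      rw [← mul_sub, abs_mul]
      have := hfl x y
      rw [abs_of_pos (by norm_num : (0 : ℝ) < 1 / 40)]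
      linarith)
    filter_upwards [h1] with n hn
    rw [pr_smul, abs_mul, abs_of_pos (by norm_num : (0 : ℝ) < 1 / 40)] at hn
    linarith
  have hadm : ∀ σ : ℝ, |σ| = 1 → Adm o 2 (fun n x => max 0 (σ * (f n x - F x))) := by
    intro σ hσ
    refine ⟨fun n x => le_max_left _ _, fun n x y => ?_, fun n => ?_⟩
    · have h1 := abs_max_sub_max_le_abs (σ * (f n x - F x)) (σ * (f n y - F y)) 0
      rw [max_comm _ (0 : ℝ), max_comm _ (0 : ℝ)] at h1
      refine h1.trans ?_
      have h2 : σ * (f n x - F x) - σ * (f n y - F y) = σ * ((f n x - f n y) - (F x - F y)) := by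
        ring
      rw [h2, abs_mul, hσ, one_mul]
      refine (abs_sub _ _).trans ?_
      have h3 := hf n x y
      have h4 := hFl x y
      linarith
    · simp [hf0, hF0]
  have hlim : ∀ σ : ℝ, |σ| = 1 → ∀ x, ∀ θ : ℝ, 0 < θ →
      ∀ᶠ n in (U : Filter ℕ), max 0 (σ * (f n x - F x)) ≤ θ := by
    intro σ hσ x θ hθ
    have h1 : Tendsto (fun n => max 0 (σ * (f n x - F x))) (U : Filter ℕ) (𝓝 0) := by
      have h2 : Tendsto (fun n => σ * (f n x - F x)) (U : Filter ℕ) (𝓝 0) := by
        have h3 := ((hF x).sub (tendsto_const_nhds (x := F x))).const_mul σ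
        simpa using h3
      have h4 := (tendsto_const_nhds (x := (0 : ℝ))).max h2
      simpa using h4
    filter_upwards [h1.eventually (gt_mem_nhds hθ)] with n hn
    exact hn.le
  have hdec : ∀ᶠ n in (U : Filter ℕ), κ / 4 ≤ pr (v n) (fun x => max 0 (1 * (f n x - F x))) ∨
      κ / 4 ≤ pr (-(v n)) (fun x => max 0 ((-1) * (f n x - F x))) := by
    filter_upwards [hpr, ht F hF0 hFl] with n hn1 hn2
    by_contra hcon
    push Not at hcon
    obtain ⟨hc1, hc2⟩ := hcon
    have h1 : pr (v n) (fun x => f n x - F x) =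
        pr (v n) (fun x => max 0 (1 * (f n x - F x))) +
          pr (-(v n)) (fun x => max 0 ((-1) * (f n x - F x))) := by
      rw [pr_neg_left, ← sub_eq_add_neg, ← pr_sub]
      refine pr_congr _ fun x _ => ?_
      rcases le_total 0 (f n x - F x) with hx | hx
      · rw [max_eq_right (by linarith), max_eq_left (by linarith)]; ring
      · rw [max_eq_left (by linarith), max_eq_right (by linarith)]; ring
    rw [pr_sub] at h1
    have h2 := (abs_le.1 hn2).2
    linarith
  rw [Ultrafilter.eventually_or] at hdec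
  rcases hdec with hd | hd
  · obtain ⟨m, D, hm, hD0, hDl, hDt, hDp⟩ := extract_pos U hU o ε hε hsep v K hK0 hK _
      (hadm 1 (by norm_num)) (hlim 1 (by norm_num)) (κ / 4) (by positivity) ht40 hd
    refine ⟨m, D, hm, hD0, hDl, hDt, fun j k hjk => ?_⟩
    have := hDp j k hjk
    linarith
  · obtain ⟨m, D, hm, hD0, hDl, hDt, hDp⟩ := extract_pos U hU o ε hε hsep (fun n => -(v n)) K hK0
      (fun n => by
        have := hK n
        rw [Finsupp.support_neg]
        simpa using this) _
      (hadm (-1) (by norm_num)) (hlim (-1) (by norm_num)) (κ / 4) (by positivity)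
      (fun f hf0 hfl => by
        filter_upwards [ht40 f hf0 hfl] with n hn
        rw [pr_neg_left, abs_neg]
        exact hn) hd
    refine ⟨m, fun j x => - D j x, hm, fun j => by simp [hD0], fun j x y => ?_, fun x => ?_,
      fun j k hjk => ?_⟩
    · have := hDl j x y
      have h2 : -D j x - -D j y = -(D j x - D j y) := by ring
      rw [h2, abs_neg]
      exact this
    · have := (hDt x).neg
      simpa using this
    · have := hDp j k hjk
      rw [pr_neg_left] at this
      rw [pr_neg]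
      linarith

end Pool.Agent.H756QS
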