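import Pool.Agent.H756QS.Schur

set_option autoImplicit false
set_option linter.unusedSectionVars false

/-!
Lipschitz-free spaces with real or complex scalars: definitions and the reduction to real scalars.
-/

noncomputable section

namespace Pool.Agent.H756QS

open Filter Set Topology NormedSpace Pool.Agent.H266R3.LF

/-- The vector space of `𝕜`-valued Lipschitz functions on `M` vanishing at the base point `o`. -/
def lipSubK (𝕜 : Type) [RCLike 𝕜] (M : Type) [MetricSpace M] (o : M) :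
    Submodule 𝕜 (M → 𝕜) where
  carrier := {f | f o = 0 ∧ ∃ K : ℝ, 0 ≤ K ∧ ∀ x y, ‖f x - f y‖ ≤ K * dist x y}
  zero_mem' := ⟨rfl, 0, le_rfl, fun x y => by simp⟩
  add_mem' := by
    rintro f g ⟨hf, K, hK, hfK⟩ ⟨hg, L, hL, hgL⟩
    refine ⟨by simp [hf, hg], K + L, by positivity, fun x y => ?_⟩
    have h1 := hfK x y
    have h2 := hgL x y
    have : (f + g) x - (f + g) y = (f x - f y) + (g x - g y) := by
      simp only [Pi.add_apply]; ring
    rw [this]
    calc _ ≤ ‖f x - f y‖ + ‖g x - g y‖ := norm_add_le _ _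
      _ ≤ _ := by rw [add_mul]; exact add_le_add h1 h2
  smul_mem' := by
    rintro c f ⟨hf, K, hK, hfK⟩
    refine ⟨by simp [hf], ‖c‖ * K, by positivity, fun x y => ?_⟩
    have h1 := hfK x y
    have : (c • f) x - (c • f) y = c * (f x - f y) := by
      simp only [Pi.smul_apply, smul_eq_mul]; ring
    rw [this, norm_mul, mul_assoc]
    exact mul_le_mul_of_nonneg_left h1 (norm_nonneg _)

/-- `LipK 𝕜 M o`: the space of `𝕜`-valued Lipschitz functions on `M` vanishing at `o`, to be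
normed by the least Lipschitz constant. -/
def LipK (𝕜 : Type) [RCLike 𝕜] (M : Type) [MetricSpace M] (o : M) : Type := ↥(lipSubK 𝕜 M o)

variable {𝕜 : Type} [RCLike 𝕜] {M : Type} [MetricSpace M] {o : M}

/-- The underlying function. -/
def LipK.fn (f : LipK 𝕜 M o) : M → 𝕜 := f.1

section raw

/-- pointwise addition -/
local instance lipKACG : AddCommGroup (LipK 𝕜 M o) := Submodule.addCommGroup (lipSubK 𝕜 M o)
/-- pointwise scalar multiplication -/
local instance lipKMod : Module 𝕜 (LipK 𝕜 M o) := Submodule.module (lipSubK 𝕜 M o)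

/-- The norm: the least Lipschitz constant. -/
instance : Norm (LipK 𝕜 M o) :=
  ⟨fun f => sInf {K : ℝ | 0 ≤ K ∧ ∀ x y, ‖f.fn x - f.fn y‖ ≤ K * dist x y}⟩

theorem LipK.ext {f g : LipK 𝕜 M o} (h : ∀ x, f.fn x = g.fn x) : f = g :=
  Subtype.ext (funext h)

theorem LipK.fn_add' (f g : LipK 𝕜 M o) (x : M) : (f + g).fn x = f.fn x + g.fn x := rfl
theorem LipK.fn_smul' (c : 𝕜) (f : LipK 𝕜 M o) (x : M) : (c • f).fn x = c * f.fn x := rfl
theorem LipK.fn_zero' (x : M) : (0 : LipK 𝕜 M o).fn x = 0 := rfl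
@[simp] theorem LipK.fn_base (f : LipK 𝕜 M o) : f.fn o = 0 := f.2.1

/-- Constructor. -/
def LipK.mk (f : M → 𝕜) (h0 : f o = 0) (K : ℝ) (hK : 0 ≤ K)
    (h : ∀ x y, ‖f x - f y‖ ≤ K * dist x y) : LipK 𝕜 M o := ⟨f, h0, K, hK, h⟩

@[simp] theorem LipK.fn_mk (f : M → 𝕜) (h0 : f o = 0) (K : ℝ) (hK : 0 ≤ K)
    (h : ∀ x y, ‖f x - f y‖ ≤ K * dist x y) (x : M) :
    (LipK.mk f h0 K hK h).fn x = f x := rfl

theorem LipK.set_nonempty (f : LipK 𝕜 M o) :
    {K : ℝ | 0 ≤ K ∧ ∀ x y, ‖f.fn x - f.fn y‖ ≤ K * dist x y}.Nonempty := by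
  obtain ⟨K, hK, h⟩ := f.2.2
  exact ⟨K, hK, h⟩

theorem LipK.norm_le' (f : LipK 𝕜 M o) {K : ℝ} (hK : 0 ≤ K)
    (h : ∀ x y, ‖f.fn x - f.fn y‖ ≤ K * dist x y) : ‖f‖ ≤ K :=
  csInf_le ⟨0, fun _ h => h.1⟩ ⟨hK, h⟩

theorem LipK.norm_nonneg' (f : LipK 𝕜 M o) : 0 ≤ ‖f‖ :=
  le_csInf f.set_nonempty fun _ h => h.1

theorem LipK.norm_sub_fn_le (f : LipK 𝕜 M o) (x y : M) :
    ‖f.fn x - f.fn y‖ ≤ ‖f‖ * dist x y := by
  rcases eq_or_ne x y with rfl | hxy
  · simp
  · have hd : 0 < dist x y := dist_pos.2 hxy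
    rw [← div_le_iff₀ hd]
    refine le_csInf f.set_nonempty ?_
    rintro K ⟨_, hK⟩
    rw [div_le_iff₀ hd]
    exact hK x y

theorem LipK.core : NormedSpace.Core 𝕜 (LipK 𝕜 M o) where
  norm_nonneg f := f.norm_nonneg'
  norm_smul c f := by
    apply le_antisymm
    · refine LipK.norm_le' _ (mul_nonneg (norm_nonneg _) f.norm_nonneg') fun x y => ?_
      have h1 := f.norm_sub_fn_le x y
      have : (c • f).fn x - (c • f).fn y = c * (f.fn x - f.fn y) := by
        simp only [LipK.fn_smul']; ring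
      rw [this, norm_mul, mul_assoc]
      exact mul_le_mul_of_nonneg_left h1 (norm_nonneg _)
    · rcases eq_or_ne c 0 with rfl | hc
      · simp only [norm_zero, zero_mul]; exact LipK.norm_nonneg' _
      · have hc' : 0 < ‖c‖ := norm_pos_iff.2 hc
        rw [← le_div_iff₀' hc']
        refine LipK.norm_le' _ (div_nonneg (LipK.norm_nonneg' _) hc'.le) fun x y => ?_
        have h1 := (c • f).norm_sub_fn_le x y
        have : (c • f).fn x - (c • f).fn y = c * (f.fn x - f.fn y) := by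
          simp only [LipK.fn_smul']; ring
        rw [this, norm_mul] at h1
        rw [div_mul_eq_mul_div, le_div_iff₀ hc']
        rw [mul_comm]
        exact h1
  norm_triangle f g := by
    refine LipK.norm_le' _ (add_nonneg f.norm_nonneg' g.norm_nonneg') fun x y => ?_
    have h1 := f.norm_sub_fn_le x y
    have h2 := g.norm_sub_fn_le x y
    have : (f + g).fn x - (f + g).fn y = (f.fn x - f.fn y) + (g.fn x - g.fn y) := by
      simp only [LipK.fn_add']; ring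
    rw [this]
    calc _ ≤ ‖f.fn x - f.fn y‖ + ‖g.fn x - g.fn y‖ := norm_add_le _ _
      _ ≤ _ := by rw [add_mul]; exact add_le_add h1 h2
  norm_eq_zero_iff f := by
    constructor
    · intro h
      apply LipK.ext
      intro x
      have h1 := f.norm_sub_fn_le x o
      rw [h, zero_mul, LipK.fn_base, sub_zero] at h1
      exact norm_le_zero_iff.1 h1
    · rintro rfl
      apply le_antisymm _ (LipK.norm_nonneg' _)
      refine LipK.norm_le' _ le_rfl fun x y => by simp [LipK.fn_zero']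

instance : NormedAddCommGroup (LipK 𝕜 M o) :=
  NormedAddCommGroup.ofCore (LipK.core (𝕜 := 𝕜) (M := M) (o := o))
instance : NormedSpace 𝕜 (LipK 𝕜 M o) :=
  NormedSpace.ofCore (LipK.core (𝕜 := 𝕜) (M := M) (o := o))

end raw

@[simp] theorem LipK.fn_add (f g : LipK 𝕜 M o) (x : M) : (f + g).fn x = f.fn x + g.fn x := rfl
@[simp] theorem LipK.fn_sub (f g : LipK 𝕜 M o) (x : M) : (f - g).fn x = f.fn x - g.fn x := rfl
@[simp] theorem LipK.fn_neg (f : LipK 𝕜 M o) (x : M) : (-f).fn x = - f.fn x := rfl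
@[simp] theorem LipK.fn_smul (c : 𝕜) (f : LipK 𝕜 M o) (x : M) :
    (c • f).fn x = c * f.fn x := rfl
@[simp] theorem LipK.fn_zero (x : M) : (0 : LipK 𝕜 M o).fn x = 0 := rfl

example (f : LipK 𝕜 M o) :
    ‖f‖ = sInf {K : ℝ | 0 ≤ K ∧ ∀ x y, ‖f.fn x - f.fn y‖ ≤ K * dist x y} := rfl

theorem LipK.norm_fn_le (f : LipK 𝕜 M o) (x : M) : ‖f.fn x‖ ≤ ‖f‖ * dist x o := by
  have := f.norm_sub_fn_le x o
  rwa [LipK.fn_base, sub_zero] at this

/-- The evaluation functional at `x`. -/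
def dltK (𝕜 : Type) [RCLike 𝕜] (M : Type) [MetricSpace M] (o : M) (x : M) :
    StrongDual 𝕜 (LipK 𝕜 M o) :=
  LinearMap.mkContinuous
    { toFun := fun f => f.fn x
      map_add' := fun _ _ => rfl
      map_smul' := fun _ _ => rfl } (dist x o) (fun f => by
        rw [mul_comm]
        exact f.norm_fn_le x)

@[simp] theorem dltK_apply (x : M) (f : LipK 𝕜 M o) : dltK 𝕜 M o x f = f.fn x := rfl

/-- The Lipschitz-free space over the scalar field `𝕜`: the closed linear span of the evaluation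
functionals in the dual of `LipK 𝕜 M o`. -/
def LFreeK (𝕜 : Type) [RCLike 𝕜] (M : Type) [MetricSpace M] (o : M) :
    Submodule 𝕜 (StrongDual 𝕜 (LipK 𝕜 M o)) :=
  (Submodule.span 𝕜 (Set.range (dltK 𝕜 M o))).topologicalClosure

/-- The Lipschitz-free space over `𝕜`, as a normed space. -/
def FreeK (𝕜 : Type) [RCLike 𝕜] (M : Type) [MetricSpace M] (o : M) : Type := ↥(LFreeK 𝕜 M o)

instance : NormedAddCommGroup (FreeK 𝕜 M o) := Submodule.normedAddCommGroup (LFreeK 𝕜 M o)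
instance : NormedSpace 𝕜 (FreeK 𝕜 M o) := Submodule.normedSpace (LFreeK 𝕜 M o)

/-- inclusion into the dual -/
def incK (𝕜 : Type) [RCLike 𝕜] (M : Type) [MetricSpace M] (o : M) :
    FreeK 𝕜 M o →ₗ[𝕜] StrongDual 𝕜 (LipK 𝕜 M o) :=
  (LFreeK 𝕜 M o).subtype

theorem norm_incK (x : FreeK 𝕜 M o) : ‖incK 𝕜 M o x‖ = ‖x‖ := rfl

theorem incK_mem (x : FreeK 𝕜 M o) : incK 𝕜 M o x ∈ LFreeK 𝕜 M o := x.2

/-- evaluation of elements of the free space at a Lipschitz function -/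
def evK (f : LipK 𝕜 M o) : StrongDual 𝕜 (FreeK 𝕜 M o) :=
  LinearMap.mkContinuous
    { toFun := fun v => incK 𝕜 M o v f
      map_add' := fun _ _ => rfl
      map_smul' := fun _ _ => rfl } ‖f‖ (fun v => by
        rw [mul_comm]
        exact (incK 𝕜 M o v).le_opNorm f)

theorem evK_apply (f : LipK 𝕜 M o) (v : FreeK 𝕜 M o) : evK f v = incK 𝕜 M o v f := rfl

theorem norm_evK_le (f : LipK 𝕜 M o) : ‖evK f‖ ≤ ‖f‖ :=
  LinearMap.mkContinuous_norm_le _ (norm_nonneg _) _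

/-- a real Lipschitz function as a `𝕜`-valued one -/
def emb (𝕜 : Type) [RCLike 𝕜] (f : Lip0 M o) : LipK 𝕜 M o :=
  LipK.mk (fun x => (f.fn x : 𝕜)) (by simp) ‖f‖ (norm_nonneg _) fun x y => by
    rw [← RCLike.ofReal_sub, RCLike.norm_ofReal]
    exact f.abs_sub_le x y

theorem emb_fn (f : Lip0 M o) (x : M) : (emb 𝕜 f).fn x = (f.fn x : 𝕜) := rfl

theorem norm_emb_le (f : Lip0 M o) : ‖emb 𝕜 f‖ ≤ ‖f‖ := by
  refine LipK.norm_le' _ (norm_nonneg _) fun x y => ?_
  rw [emb_fn, emb_fn, ← RCLike.ofReal_sub, RCLike.norm_ofReal]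
  exact f.abs_sub_le x y

theorem emb_add (f g : Lip0 M o) : emb 𝕜 (f + g) = emb 𝕜 f + emb 𝕜 g :=
  LipK.ext fun x => by simp [emb_fn]

theorem emb_smul (c : ℝ) (f : Lip0 M o) : emb 𝕜 (c • f) = (c : 𝕜) • emb 𝕜 f :=
  LipK.ext fun x => by simp [emb_fn]

/-- the real part of a `𝕜`-valued Lipschitz function -/
def reL (f : LipK 𝕜 M o) : Lip0 M o :=
  Lip0.mk (fun x => RCLike.re (f.fn x)) (by simp) ‖f‖ (norm_nonneg _) fun x y => by
    rw [← map_sub]
    exact (RCLike.abs_re_le_norm _).trans (f.norm_sub_fn_le x y)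

/-- the imaginary part of a `𝕜`-valued Lipschitz function -/
def imL (f : LipK 𝕜 M o) : Lip0 M o :=
  Lip0.mk (fun x => RCLike.im (f.fn x)) (by simp) ‖f‖ (norm_nonneg _) fun x y => by
    rw [← map_sub]
    exact (RCLike.abs_im_le_norm _).trans (f.norm_sub_fn_le x y)

theorem norm_reL_le (f : LipK 𝕜 M o) : ‖reL f‖ ≤ ‖f‖ := by
  refine Lip0.norm_le' _ (norm_nonneg _) fun x y => ?_
  show |RCLike.re (f.fn x) - RCLike.re (f.fn y)| ≤ _
  rw [← map_sub]
  exact (RCLike.abs_re_le_norm _).trans (f.norm_sub_fn_le x y)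

theorem norm_imL_le (f : LipK 𝕜 M o) : ‖imL f‖ ≤ ‖f‖ := by
  refine Lip0.norm_le' _ (norm_nonneg _) fun x y => ?_
  show |RCLike.im (f.fn x) - RCLike.im (f.fn y)| ≤ _
  rw [← map_sub]
  exact (RCLike.abs_im_le_norm _).trans (f.norm_sub_fn_le x y)

theorem reL_add_imL (f : LipK 𝕜 M o) :
    f = emb 𝕜 (reL f) + (RCLike.I : 𝕜) • emb 𝕜 (imL f) :=
  LipK.ext fun x => by
    rw [LipK.fn_add, LipK.fn_smul, emb_fn, emb_fn]
    show f.fn x = (RCLike.re (f.fn x) : 𝕜) + RCLike.I * (RCLike.im (f.fn x) : 𝕜)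
    rw [mul_comm]
    exact (RCLike.re_add_im (f.fn x)).symm

/-- real part of a functional, restricted to real Lipschitz functions -/
def reF (μ : StrongDual 𝕜 (LipK 𝕜 M o)) : StrongDual ℝ (Lip0 M o) :=
  LinearMap.mkContinuous
    { toFun := fun f => RCLike.re (μ (emb 𝕜 f))
      map_add' := fun f g => by rw [emb_add, map_add, map_add]
      map_smul' := fun c f => by
        rw [emb_smul, map_smul, smul_eq_mul, RCLike.re_ofReal_mul, RingHom.id_apply,
          smul_eq_mul] } ‖μ‖ (fun f => by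
        refine (RCLike.abs_re_le_norm _).trans ((μ.le_opNorm _).trans ?_)
        exact mul_le_mul_of_nonneg_left (norm_emb_le f) (norm_nonneg _))

/-- imaginary part of a functional, restricted to real Lipschitz functions -/
def imF (μ : StrongDual 𝕜 (LipK 𝕜 M o)) : StrongDual ℝ (Lip0 M o) :=
  LinearMap.mkContinuous
    { toFun := fun f => RCLike.im (μ (emb 𝕜 f))
      map_add' := fun f g => by rw [emb_add, map_add, map_add]
      map_smul' := fun c f => by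
        rw [emb_smul, map_smul, smul_eq_mul, RCLike.im_ofReal_mul, RingHom.id_apply,
          smul_eq_mul] } ‖μ‖ (fun f => by
        refine (RCLike.abs_im_le_norm _).trans ((μ.le_opNorm _).trans ?_)
        exact mul_le_mul_of_nonneg_left (norm_emb_le f) (norm_nonneg _))

theorem reF_apply (μ : StrongDual 𝕜 (LipK 𝕜 M o)) (f : Lip0 M o) :
    reF μ f = RCLike.re (μ (emb 𝕜 f)) := rfl
theorem imF_apply (μ : StrongDual 𝕜 (LipK 𝕜 M o)) (f : Lip0 M o) :
    imF μ f = RCLike.im (μ (emb 𝕜 f)) := rfl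

theorem norm_reF_le (μ : StrongDual 𝕜 (LipK 𝕜 M o)) : ‖reF μ‖ ≤ ‖μ‖ :=
  LinearMap.mkContinuous_norm_le _ (norm_nonneg _) _
theorem norm_imF_le (μ : StrongDual 𝕜 (LipK 𝕜 M o)) : ‖imF μ‖ ≤ ‖μ‖ :=
  LinearMap.mkContinuous_norm_le _ (norm_nonneg _) _

theorem reF_sub (μ ν : StrongDual 𝕜 (LipK 𝕜 M o)) : reF (μ - ν) = reF μ - reF ν := by
  ext f
  show RCLike.re ((μ - ν) (emb 𝕜 f)) = RCLike.re (μ (emb 𝕜 f)) - RCLike.re (ν (emb 𝕜 f))
  rw [← map_sub]; rfl
theorem imF_sub (μ ν : StrongDual 𝕜 (LipK 𝕜 M o)) : imF (μ - ν) = imF μ - imF ν := by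
  ext f
  show RCLike.im ((μ - ν) (emb 𝕜 f)) = RCLike.im (μ (emb 𝕜 f)) - RCLike.im (ν (emb 𝕜 f))
  rw [← map_sub]; rfl
theorem reF_add (μ ν : StrongDual 𝕜 (LipK 𝕜 M o)) : reF (μ + ν) = reF μ + reF ν := by
  ext f
  show RCLike.re ((μ + ν) (emb 𝕜 f)) = RCLike.re (μ (emb 𝕜 f)) + RCLike.re (ν (emb 𝕜 f))
  rw [← map_add]; rfl
theorem imF_add (μ ν : StrongDual 𝕜 (LipK 𝕜 M o)) : imF (μ + ν) = imF μ + imF ν := by
  ext f
  show RCLike.im ((μ + ν) (emb 𝕜 f)) = RCLike.im (μ (emb 𝕜 f)) + RCLike.im (ν (emb 𝕜 f))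
  rw [← map_add]; rfl
theorem reF_smul (c : 𝕜) (μ : StrongDual 𝕜 (LipK 𝕜 M o)) :
    reF (c • μ) = RCLike.re c • reF μ - RCLike.im c • imF μ := by
  ext f
  show RCLike.re (c * μ (emb 𝕜 f)) =
    RCLike.re c * RCLike.re (μ (emb 𝕜 f)) - RCLike.im c * RCLike.im (μ (emb 𝕜 f))
  exact RCLike.mul_re _ _
theorem imF_smul (c : 𝕜) (μ : StrongDual 𝕜 (LipK 𝕜 M o)) :
    imF (c • μ) = RCLike.re c • imF μ + RCLike.im c • reF μ := by
  ext f
  show RCLike.im (c * μ (emb 𝕜 f)) =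
    RCLike.re c * RCLike.im (μ (emb 𝕜 f)) + RCLike.im c * RCLike.re (μ (emb 𝕜 f))
  exact RCLike.mul_im _ _

theorem continuous_reF : Continuous (reF : StrongDual 𝕜 (LipK 𝕜 M o) → StrongDual ℝ (Lip0 M o)) := by
  refine (LipschitzWith.of_dist_le_mul (K := 1) fun μ ν => ?_).continuous
  have h1 := dist_eq_norm (reF μ) (reF ν)
  have h2 := dist_eq_norm μ ν
  have h3 := norm_reF_le (μ - ν)
  rw [reF_sub] at h3
  rw [NNReal.coe_one, one_mul]
  exact h1.trans_le (h3.trans h2.symm.le)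

theorem continuous_imF : Continuous (imF : StrongDual 𝕜 (LipK 𝕜 M o) → StrongDual ℝ (Lip0 M o)) := by
  refine (LipschitzWith.of_dist_le_mul (K := 1) fun μ ν => ?_).continuous
  have h1 := dist_eq_norm (imF μ) (imF ν)
  have h2 := dist_eq_norm μ ν
  have h3 := norm_imF_le (μ - ν)
  rw [imF_sub] at h3
  rw [NNReal.coe_one, one_mul]
  exact h1.trans_le (h3.trans h2.symm.le)

theorem parts_mem (μ : StrongDual 𝕜 (LipK 𝕜 M o)) (hμ : μ ∈ LFreeK 𝕜 M o) :
    reF μ ∈ LFree M o ∧ imF μ ∈ LFree M o := by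
  have hcl : IsClosed ((LFree M o : Submodule ℝ (StrongDual ℝ (Lip0 M o))) :
      Set (StrongDual ℝ (Lip0 M o))) := Submodule.isClosed_topologicalClosure _
  let S : Submodule 𝕜 (StrongDual 𝕜 (LipK 𝕜 M o)) :=
    { carrier := {μ | reF μ ∈ LFree M o ∧ imF μ ∈ LFree M o}
      zero_mem' := by
        have h1 : reF (0 : StrongDual 𝕜 (LipK 𝕜 M o)) = 0 := by
          ext f; show RCLike.re (0 : 𝕜) = 0; simp
        have h2 : imF (0 : StrongDual 𝕜 (LipK 𝕜 M o)) = 0 := by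
          ext f; show RCLike.im (0 : 𝕜) = 0; simp
        constructor
        · rw [h1]; exact Submodule.zero_mem _
        · rw [h2]; exact Submodule.zero_mem _
      add_mem' := by
        rintro μ ν ⟨h1, h2⟩ ⟨h3, h4⟩
        constructor
        · rw [reF_add]; exact Submodule.add_mem _ h1 h3
        · rw [imF_add]; exact Submodule.add_mem _ h2 h4
      smul_mem' := by
        rintro c μ ⟨h1, h2⟩
        constructor
        · rw [reF_smul]
          exact Submodule.sub_mem _ (Submodule.smul_mem _ _ h1) (Submodule.smul_mem _ _ h2)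
        · rw [imF_smul]
          exact Submodule.add_mem _ (Submodule.smul_mem _ _ h2) (Submodule.smul_mem _ _ h1) }
  have hS : IsClosed (S : Set (StrongDual 𝕜 (LipK 𝕜 M o))) :=
    (hcl.preimage continuous_reF).inter (hcl.preimage continuous_imF)
  have hspan : Submodule.span 𝕜 (Set.range (dltK 𝕜 M o)) ≤ S := by
    rw [Submodule.span_le]
    rintro _ ⟨x, rfl⟩
    have h1 : reF (dltK 𝕜 M o x) = dlt M o x := by
      ext f
      show RCLike.re ((f.fn x : ℝ) : 𝕜) = f.fn x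
      simp
    have h2 : imF (dltK 𝕜 M o x) = 0 := by
      ext f
      show RCLike.im ((f.fn x : ℝ) : 𝕜) = 0
      simp
    constructor
    · rw [h1]; exact dlt_mem x
    · rw [h2]; exact Submodule.zero_mem _
  exact Submodule.topologicalClosure_minimal _ hspan hS hμ

/-- the real part of an element of the free space -/
def reX (v : FreeK 𝕜 M o) : FreeSp M o := ⟨reF (incK 𝕜 M o v), (parts_mem _ v.2).1⟩
/-- the imaginary part of an element of the free space -/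
def imX (v : FreeK 𝕜 M o) : FreeSp M o := ⟨imF (incK 𝕜 M o v), (parts_mem _ v.2).2⟩

theorem inc_reX (v : FreeK 𝕜 M o) (f : Lip0 M o) :
    inc M o (reX v) f = RCLike.re (incK 𝕜 M o v (emb 𝕜 f)) := rfl
theorem inc_imX (v : FreeK 𝕜 M o) (f : Lip0 M o) :
    inc M o (imX v) f = RCLike.im (incK 𝕜 M o v (emb 𝕜 f)) := rfl

theorem reX_sub (v w : FreeK 𝕜 M o) : reX (v - w) = reX v - reX w :=
  Subtype.ext (reF_sub _ _)
theorem imX_sub (v w : FreeK 𝕜 M o) : imX (v - w) = imX v - imX w :=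
  Subtype.ext (imF_sub _ _)

theorem norm_reX_le (v : FreeK 𝕜 M o) : ‖reX v‖ ≤ ‖v‖ := norm_reF_le (incK 𝕜 M o v)
theorem norm_imX_le (v : FreeK 𝕜 M o) : ‖imX v‖ ≤ ‖v‖ := norm_imF_le (incK 𝕜 M o v)

theorem norm_le_parts (v : FreeK 𝕜 M o) : ‖v‖ ≤ ‖reX v‖ + ‖imX v‖ := by
  rw [← norm_incK]
  refine ContinuousLinearMap.opNorm_le_bound _ (by positivity) fun g => ?_
  set μ := incK 𝕜 M o v with hμ
  obtain ⟨c, hc, hcμ⟩ : ∃ c : 𝕜, ‖c‖ = 1 ∧ c * μ g = (‖μ g‖ : 𝕜) := by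
    rcases eq_or_ne (μ g) 0 with h | h
    · exact ⟨1, by simp, by simp [h]⟩
    · refine ⟨(‖μ g‖ : 𝕜) / μ g, ?_, ?_⟩
      · rw [norm_div, RCLike.norm_ofReal, abs_of_nonneg (norm_nonneg _)]
        exact div_self (norm_ne_zero_iff.2 h)
      · exact div_mul_cancel₀ _ h
  have h1 : μ (c • g) = (‖μ g‖ : 𝕜) := by rw [map_smul, smul_eq_mul, hcμ]
  have h2 : ‖c • g‖ ≤ ‖g‖ := by rw [norm_smul, hc, one_mul]
  have h3 : ‖μ g‖ = inc M o (reX v) (reL (c • g)) - inc M o (imX v) (imL (c • g)) := by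
    have h4 : RCLike.re (μ (c • g)) = ‖μ g‖ := by rw [h1]; exact RCLike.ofReal_re _
    rw [← h4, inc_reX, inc_imX]
    conv_lhs => rw [reL_add_imL (c • g)]
    rw [map_add, map_add, map_smul, smul_eq_mul, RCLike.I_mul_re]
    ring
  have h5 := (le_abs_self _).trans ((inc M o (reX v)).le_opNorm (reL (c • g)))
  have h6 := (neg_le_abs _).trans ((inc M o (imX v)).le_opNorm (imL (c • g)))
  rw [norm_inc] at h5 h6
  have h7 : ‖reX v‖ * ‖reL (c • g)‖ ≤ ‖reX v‖ * ‖g‖ :=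
    mul_le_mul_of_nonneg_left ((norm_reL_le _).trans h2) (norm_nonneg _)
  have h8 : ‖imX v‖ * ‖imL (c • g)‖ ≤ ‖imX v‖ * ‖g‖ :=
    mul_le_mul_of_nonneg_left ((norm_imL_le _).trans h2) (norm_nonneg _)
  rw [h3, add_mul]
  linarith

end Pool.Agent.H756QS
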