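import Pool.Agent.H756QS.KDef

set_option autoImplicit false
set_option linter.unusedSectionVars false

/-!
Quantitative Schur property and quantitative weak sequential completeness of Lipschitz-free spaces
over uniformly separated metric spaces, for real or complex scalars.
-/

noncomputable section

namespace Pool.Agent.H756QS

open Filter Set Topology NormedSpace Pool.Agent.H266R3.LF

section Defs

variable (𝕜 : Type) [RCLike 𝕜] {X : Type} [NormedAddCommGroup X] [NormedSpace 𝕜 X]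

/-- `δ(x_n) = sup_{‖φ‖ ≤ 1} inf_n sup_{k, l ≥ n} |φ(x_k) - φ(x_l)|`. -/
def deltaK (x : ℕ → X) : ℝ :=
  ⨆ φ : {φ : StrongDual 𝕜 X // ‖φ‖ ≤ 1}, infSup fun k l => ‖φ.1 (x k) - φ.1 (x l)‖

/-- The set of weak* cluster points in the bidual of the sequence `y`. -/
def clustK (y : ℕ → X) : Set (StrongDual 𝕜 (StrongDual 𝕜 X)) :=
  {ψ | MapClusterPt (StrongDual.toWeakDual ψ) atTop
    fun k => StrongDual.toWeakDual (inclusionInDoubleDual 𝕜 X (y k))}

/-- `wck(x_n)`: the supremum over all subsequences `y` of the distance (the infimum of the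
distances) of the weak* cluster points of `y` to `X`. -/
def wckK (x : ℕ → X) : ℝ :=
  ⨆ s : {s : ℕ → ℕ // StrictMono s}, ⨅ ψ : clustK 𝕜 (fun k => x (s.1 k)),
    Metric.infDist ψ.1 (Set.range (inclusionInDoubleDual 𝕜 X))

end Defs

/-- `ca(x_n) = inf_n sup_{k, l ≥ n} ‖x_k - x_l‖` (no scalars needed). -/
def caK {X : Type} [NormedAddCommGroup X] (x : ℕ → X) : ℝ := infSup fun k l => ‖x k - x l‖

variable {𝕜 : Type} [RCLike 𝕜] {M : Type} [MetricSpace M]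

theorem infSup_mono {a b : ℕ → ℕ → ℝ} {B : ℝ} (hB : ∀ k l, |b k l| ≤ B) (h0 : ∀ k l, 0 ≤ a k l)
    (hab : ∀ k l, a k l ≤ b k l) : infSup a ≤ infSup b := by
  refine le_of_forall_gt_imp_ge_of_dense fun r hr => ?_
  obtain ⟨n, hn⟩ := infSup_lt hB hr
  exact infSup_le h0 ⟨n, fun k l hk hl => (hab k l).trans (hn k l hk hl).le⟩

theorem deltaK_ge {X : Type} [NormedAddCommGroup X] [NormedSpace 𝕜 X] (x : ℕ → X) (B : ℝ)
    (hB : ∀ n, ‖x n‖ ≤ B) (φ : StrongDual 𝕜 X) (hφ : ‖φ‖ ≤ 1) :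
    infSup (fun k l => ‖φ (x k) - φ (x l)‖) ≤ deltaK 𝕜 x := by
  unfold deltaK
  refine le_ciSup (f := fun φ : {φ : StrongDual 𝕜 X // ‖φ‖ ≤ 1} =>
    infSup fun k l => ‖φ.1 (x k) - φ.1 (x l)‖) ⟨2 * B, ?_⟩ ⟨φ, hφ⟩
  rintro _ ⟨ψ, rfl⟩
  refine infSup_le (fun _ _ => norm_nonneg _) ⟨0, fun k l _ _ => ?_⟩
  have h1 : ∀ n, ‖ψ.1 (x n)‖ ≤ B := by
    intro n
    have h2 := ψ.1.le_opNorm (x n)
    have h3 : ‖ψ.1‖ * ‖x n‖ ≤ 1 * ‖x n‖ := mul_le_mul_of_nonneg_right ψ.2 (norm_nonneg _)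
    linarith [hB n]
  refine (norm_sub_le _ _).trans ?_
  linarith [h1 k, h1 l]

/-- A bounded sequence is `r`-Cauchy from some point on as soon as `1600 s < r`, where `s` bounds
the oscillation of the sequence at all 1-Lipschitz functions. -/
theorem schur_key' (o : M) (ε : ℝ) (hε : 0 < ε) (hsep : ∀ x y : M, x ≠ y → ε ≤ dist x y)
    (x : ℕ → FreeSp M o) (B : ℝ) (hB : ∀ n, ‖x n‖ ≤ B) (s r : ℝ) (hr0 : 0 < r)
    (hs : ∀ f : Lip0 M o, ‖f‖ ≤ 1 → infSup (fun k l => |ev o f (x k) - ev o f (x l)|) ≤ s)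
    (hr : 1600 * s < r) : ∃ n, ∀ k l, n ≤ k → n ≤ l → ‖x k - x l‖ ≤ r := by
  by_contra hcon
  push Not at hcon
  choose k l hk hl hkl using hcon
  have hB0 : 0 ≤ B := (norm_nonneg _).trans (hB 0)
  have hbd : ∀ φ : StrongDual ℝ (FreeSp M o), ‖φ‖ ≤ 1 → ∀ k l, |(|φ (x k) - φ (x l)|)| ≤ 2 * B := by
    intro φ hφ k l
    have h1 : ∀ n, |φ (x n)| ≤ B := by
      intro n
      have h2 := φ.le_opNorm (x n)
      have h3 : ‖φ‖ * ‖x n‖ ≤ 1 * ‖x n‖ := mul_le_mul_of_nonneg_right hφ (norm_nonneg _)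
      rw [Real.norm_eq_abs] at h2
      linarith [hB n]
    rw [abs_abs]
    refine (abs_sub _ _).trans ?_
    linarith [h1 k, h1 l]
  have hU : ((hyperfilter ℕ : Ultrafilter ℕ) : Filter ℕ) ≤ cofinite := hyperfilter_le_cofinite
  obtain ⟨m, D, hm, hD, -, hDp⟩ := extractX (hyperfilter ℕ) hU o ε hε hsep
    (fun n => x (k n) - x (l n)) (2 * B) (fun n => by
      refine (norm_sub_le _ _).trans ?_
      linarith [hB (k n), hB (l n)]) r hr0 (Eventually.of_forall fun n => (hkl n).le)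
    (fun f hf => by
      have h1 : infSup (fun k l => |ev o f (x k) - ev o f (x l)|) < r / 1000 := by
        refine lt_of_le_of_lt (hs f hf) ?_
        linarith
      obtain ⟨n0, hn0⟩ := infSup_lt (hbd _ ((norm_ev_le o f).trans hf)) h1
      have h2 : ∀ᶠ n in atTop, n0 ≤ n := eventually_ge_atTop n0
      have h3 : ((hyperfilter ℕ : Ultrafilter ℕ) : Filter ℕ) ≤ atTop := by
        rw [← Nat.cofinite_eq_atTop]; exact hU
      filter_upwards [h3 h2] with n hn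
      have h4 := hn0 (k n) (l n) (hn.trans (hk n)) (hn.trans (hl n))
      rw [map_sub]
      exact h4.le)
  -- the function `D 0 / 80`
  let f : Lip0 M o := (1 / 80 : ℝ) • D 0
  have hf : ‖f‖ ≤ 1 := by
    show ‖(1 / 80 : ℝ) • D 0‖ ≤ 1
    rw [norm_smul, Real.norm_eq_abs, abs_of_pos (by norm_num : (0 : ℝ) < 1 / 80)]
    have := hD 0
    linarith
  have h1 : r / 1600 ≤ infSup (fun k l => |ev o f (x k) - ev o f (x l)|) := by
    refine le_infSup (hbd _ ((norm_ev_le o f).trans hf)) fun n => ?_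
    have hmn : n ≤ m n := hm.id_le n
    refine ⟨k (m n), l (m n), hmn.trans (hk _), hmn.trans (hl _), ?_⟩
    have h2 := hDp 0 n (Nat.zero_le n)
    have h3 : ev o f (x (k (m n))) - ev o f (x (l (m n))) =
        (1 / 80) * inc M o (x (k (m n)) - x (l (m n))) (D 0) := by
      rw [← map_sub, ev_apply]
      show inc M o (x (k (m n)) - x (l (m n))) ((1 / 80 : ℝ) • D 0) = _
      rw [map_smul, smul_eq_mul]
    rw [h3]
    refine le_trans ?_ (le_abs_self _)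
    linarith
  have h2 := h1.trans (hs f hf)
  linarith

theorem schur_keyK (o : M) (ε : ℝ) (hε : 0 < ε) (hsep : ∀ x y : M, x ≠ y → ε ≤ dist x y)
    (x : ℕ → FreeK 𝕜 M o) (B : ℝ) (hB : ∀ n, ‖x n‖ ≤ B) (r : ℝ) (hr0 : 0 < r)
    (hr : 3200 * deltaK 𝕜 x < r) : ∃ n, ∀ k l, n ≤ k → n ≤ l → ‖x k - x l‖ ≤ r := by
  have hbd : ∀ φ : StrongDual 𝕜 (FreeK 𝕜 M o), ‖φ‖ ≤ 1 →
      ∀ k l, |‖φ (x k) - φ (x l)‖| ≤ 2 * B := by
    intro φ hφ k l
    have h1 : ∀ n, ‖φ (x n)‖ ≤ B := by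
      intro n
      have h2 := φ.le_opNorm (x n)
      have h3 : ‖φ‖ * ‖x n‖ ≤ 1 * ‖x n‖ := mul_le_mul_of_nonneg_right hφ (norm_nonneg _)
      linarith [hB n]
    rw [abs_of_nonneg (norm_nonneg _)]
    refine (norm_sub_le _ _).trans ?_
    linarith [h1 k, h1 l]
  have hre : ∀ f : Lip0 M o, ‖f‖ ≤ 1 →
      infSup (fun k l => |ev o f (reX (x k)) - ev o f (reX (x l))|) ≤ deltaK 𝕜 x := by
    intro f hf
    have h1 : ‖evK (emb 𝕜 f)‖ ≤ 1 := (norm_evK_le _).trans ((norm_emb_le f).trans hf)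
    refine (infSup_mono (hbd _ h1) (fun _ _ => abs_nonneg _) fun k l => ?_).trans
      (deltaK_ge x B hB _ h1)
    have h2 : ev o f (reX (x k)) - ev o f (reX (x l)) =
        RCLike.re (evK (emb 𝕜 f) (x k) - evK (emb 𝕜 f) (x l)) := by
      rw [map_sub]; rfl
    rw [h2]
    exact RCLike.abs_re_le_norm _
  have him : ∀ f : Lip0 M o, ‖f‖ ≤ 1 →
      infSup (fun k l => |ev o f (imX (x k)) - ev o f (imX (x l))|) ≤ deltaK 𝕜 x := by
    intro f hf
    have h1 : ‖evK (emb 𝕜 f)‖ ≤ 1 := (norm_evK_le _).trans ((norm_emb_le f).trans hf)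
    refine (infSup_mono (hbd _ h1) (fun _ _ => abs_nonneg _) fun k l => ?_).trans
      (deltaK_ge x B hB _ h1)
    have h2 : ev o f (imX (x k)) - ev o f (imX (x l)) =
        RCLike.im (evK (emb 𝕜 f) (x k) - evK (emb 𝕜 f) (x l)) := by
      rw [map_sub]; rfl
    rw [h2]
    exact RCLike.abs_im_le_norm _
  obtain ⟨n1, hn1⟩ := schur_key' o ε hε hsep (fun n => reX (x n)) B
    (fun n => (norm_reX_le _).trans (hB n)) (deltaK 𝕜 x) (r / 2) (by linarith) hre (by linarith)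
  obtain ⟨n2, hn2⟩ := schur_key' o ε hε hsep (fun n => imX (x n)) B
    (fun n => (norm_imX_le _).trans (hB n)) (deltaK 𝕜 x) (r / 2) (by linarith) him (by linarith)
  refine ⟨max n1 n2, fun k l hk hl => ?_⟩
  have h1 := hn1 k l ((le_max_left _ _).trans hk) ((le_max_left _ _).trans hl)
  have h2 := hn2 k l ((le_max_right _ _).trans hk) ((le_max_right _ _).trans hl)
  have h3 := norm_le_parts (x k - x l)
  rw [reX_sub, imX_sub] at h3
  linarith

theorem deltaK_nonneg {X : Type} [NormedAddCommGroup X] [NormedSpace 𝕜 X] (x : ℕ → X) (B : ℝ)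
    (hB : ∀ n, ‖x n‖ ≤ B) : 0 ≤ deltaK 𝕜 x := by
  refine le_trans ?_ (deltaK_ge x B hB (0 : StrongDual 𝕜 X) (by simp))
  refine le_infSup (B := 0) (by simp) fun n => ⟨n, n, le_rfl, le_rfl, by simp⟩

/-- Quantitative Schur property with constant `3200`. -/
theorem schurK (o : M) (ε : ℝ) (hε : 0 < ε) (hsep : ∀ x y : M, x ≠ y → ε ≤ dist x y)
    (x : ℕ → FreeK 𝕜 M o) (hx : Bornology.IsBounded (Set.range x)) :
    caK x ≤ 3200 * deltaK 𝕜 x := by
  obtain ⟨B, hB'⟩ := hx.exists_norm_le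
  have hB : ∀ n, ‖x n‖ ≤ B := fun n => hB' _ ⟨n, rfl⟩
  have hδ0 : 0 ≤ deltaK 𝕜 x := deltaK_nonneg x B hB
  refine le_of_forall_pos_lt_add fun η hη => ?_
  have h1 := schur_keyK o ε hε hsep x B hB (3200 * deltaK 𝕜 x + η / 2) (by positivity)
    (by linarith)
  have h2 : caK x ≤ 3200 * deltaK 𝕜 x + η / 2 := infSup_le (fun _ _ => norm_nonneg _) h1
  linarith

theorem norm_clustK_le {X : Type} [NormedAddCommGroup X] [NormedSpace 𝕜 X] (y : ℕ → X)
    (ψ : StrongDual 𝕜 (StrongDual 𝕜 X)) (hψ : ψ ∈ clustK 𝕜 y) (z : X) (r : ℝ) (hr : 0 ≤ r)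
    (N : ℕ) (hN : ∀ k, N ≤ k → ‖y k - z‖ ≤ r) :
    ‖ψ - inclusionInDoubleDual 𝕜 X z‖ ≤ r := by
  refine ContinuousLinearMap.opNorm_le_bound _ hr fun φ => ?_
  have hcont : Continuous fun ζ : WeakDual 𝕜 (StrongDual 𝕜 X) => ζ φ := WeakDual.eval_continuous φ
  have h1 : MapClusterPt (ψ φ) atTop fun k => φ (y k) :=
    MapClusterPt.continuousAt_comp (f := fun ζ : WeakDual 𝕜 (StrongDual 𝕜 X) => ζ φ)
      hcont.continuousAt hψ
  rw [sub_apply, dual_def]
  by_contra hcon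
  rw [not_le] at hcon
  have h2 : {t : 𝕜 | r * ‖φ‖ < ‖t - φ z‖} ∈ 𝓝 (ψ φ) := by
    refine IsOpen.mem_nhds ?_ hcon
    exact isOpen_lt continuous_const ((continuous_id.sub continuous_const).norm)
  have h3 := (h1.frequently h2).and_eventually (eventually_ge_atTop N)
  obtain ⟨k, hk1, hk2⟩ := h3.exists
  have h4 : ‖φ (y k) - φ z‖ ≤ r * ‖φ‖ := by
    rw [← map_sub]
    have h5 := φ.le_opNorm (y k - z)
    have h6 := mul_le_mul_of_nonneg_left (hN k hk2) (norm_nonneg φ)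
    linarith
  exact absurd h4 (not_le.2 hk1)

/-- Quantitative weak sequential completeness. -/
theorem wscK (o : M) (ε : ℝ) (hε : 0 < ε) (hsep : ∀ x y : M, x ≠ y → ε ≤ dist x y)
    (x : ℕ → FreeK 𝕜 M o) (hx : Bornology.IsBounded (Set.range x)) :
    wckK 𝕜 x ≤ 3200 * deltaK 𝕜 x := by
  obtain ⟨B, hB'⟩ := hx.exists_norm_le
  have hB : ∀ n, ‖x n‖ ≤ B := fun n => hB' _ ⟨n, rfl⟩
  have hδ0 : 0 ≤ deltaK 𝕜 x := deltaK_nonneg x B hB
  unfold wckK
  have : Nonempty {s : ℕ → ℕ // StrictMono s} := ⟨⟨id, strictMono_id⟩⟩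
  refine ciSup_le fun s => ?_
  rcases isEmpty_or_nonempty (clustK 𝕜 (fun k => x (s.1 k))) with he | hne
  · rw [Real.iInf_of_isEmpty]
    positivity
  · obtain ⟨ψ⟩ := hne
    refine le_of_forall_pos_lt_add fun η hη => ?_
    obtain ⟨N, hN⟩ := schur_keyK o ε hε hsep x B hB (3200 * deltaK 𝕜 x + η / 2) (by positivity)
      (by linarith)
    have h1 : ‖ψ.1 - inclusionInDoubleDual 𝕜 (FreeK 𝕜 M o) (x (s.1 N))‖ ≤
        3200 * deltaK 𝕜 x + η / 2 := by
      refine norm_clustK_le _ ψ.1 ψ.2 _ _ (by positivity) N fun k hk => ?_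
      exact hN _ _ (hk.trans (s.2.id_le k)) (s.2.id_le N)
    have h2 : Metric.infDist ψ.1 (Set.range (inclusionInDoubleDual 𝕜 (FreeK 𝕜 M o))) ≤
        3200 * deltaK 𝕜 x + η / 2 := by
      refine (Metric.infDist_le_dist_of_mem (Set.mem_range_self (x (s.1 N)))).trans ?_
      exact (dist_eq_norm ψ.1 (inclusionInDoubleDual 𝕜 (FreeK 𝕜 M o) (x (s.1 N)))).trans_le h1
    have hb : BddBelow (Set.range fun ψ : clustK 𝕜 (fun k => x (s.1 k)) =>
        Metric.infDist ψ.1 (Set.range (inclusionInDoubleDual 𝕜 (FreeK 𝕜 M o)))) := by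
      refine ⟨0, ?_⟩
      rintro _ ⟨ψ, rfl⟩
      exact Metric.infDist_nonneg
    have h3 := ciInf_le hb ψ
    have h4 := h3.trans h2
    linarith

end Pool.Agent.H756QS
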