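import Pool.Agent.H756QS.Space

set_option autoImplicit false
set_option linter.unusedSectionVars false

/-!
Measures of weak non-compactness in Lipschitz-free spaces over uniformly separated metric spaces:
definitions and proof.
-/

noncomputable section

namespace Pool.Agent.H756QS

open Filter Set Topology NormedSpace Pool.Agent.H266R3.LF

section Defs

/-- `d̂(A, B) = sup_{a ∈ A} dist(a, B)`. -/
def dhat {E : Type} [PseudoMetricSpace E] (A B : Set E) : ℝ := ⨆ a : A, Metric.infDist a.1 B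

variable {X : Type} [NormedAddCommGroup X] [NormedSpace ℝ X]

/-- De Blasi's measure of weak non-compactness: the infimum of `d̂(A, K)` over all nonempty weakly
compact sets `K ⊆ X`. -/
def omega (A : Set X) : ℝ :=
  ⨅ K : {K : Set X // K.Nonempty ∧ IsCompact (toWeakSpace ℝ X '' K)}, dhat A K.1

/-- The weak* closure of `A` in the bidual. -/
def wclosure (A : Set X) : Set (StrongDual ℝ (StrongDual ℝ X)) :=
  {ψ | StrongDual.toWeakDual ψ ∈
    closure ((fun a => StrongDual.toWeakDual (inclusionInDoubleDual ℝ X a)) '' A)}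

/-- `wk(A) = d̂(closure of A, X)`. -/
def wk (A : Set X) : ℝ := dhat (wclosure A) (Set.range (inclusionInDoubleDual ℝ X))

end Defs

section General

variable {X : Type} [NormedAddCommGroup X] [NormedSpace ℝ X]

theorem mem_ball_iff (ψ : StrongDual ℝ (StrongDual ℝ X)) (B : ℝ) :
    ψ ∈ Metric.closedBall (0 : StrongDual ℝ (StrongDual ℝ X)) B ↔ ‖ψ‖ ≤ B :=
  mem_closedBall_zero_iff (a := ψ) (r := B)

theorem exists_limit (U : Ultrafilter ℕ) (y : ℕ → X) (B : ℝ) (hB : ∀ n, ‖y n‖ ≤ B) (A : Set X)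
    (hA : ∀ n, y n ∈ A) :
    ∃ ψ ∈ wclosure A, ∀ φ : StrongDual ℝ X, Tendsto (fun n => φ (y n)) U (𝓝 (ψ φ)) := by
  have hc := WeakDual.isCompact_closedBall (𝕜 := ℝ) (E := StrongDual ℝ X) 0 B
  let F : ℕ → WeakDual ℝ (StrongDual ℝ X) :=
    fun n => StrongDual.toWeakDual (inclusionInDoubleDual ℝ X (y n))
  have hF : ∀ n, F n ∈ WeakDual.toStrongDual ⁻¹' Metric.closedBall (0 : StrongDual ℝ (StrongDual ℝ X)) B := by
    intro n
    show inclusionInDoubleDual ℝ X (y n) ∈ Metric.closedBall (0 : StrongDual ℝ (StrongDual ℝ X)) B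
    exact (mem_ball_iff _ _).2 ((double_dual_bound ℝ X (y n)).trans (hB n))
  obtain ⟨ζ, -, hζ⟩ := hc.ultrafilter_le_nhds (U.map F) (by
    rw [le_principal_iff]
    exact Filter.mem_map.2 (Filter.univ_mem' hF))
  have hT : Tendsto F U (𝓝 ζ) := hζ
  refine ⟨WeakDual.toStrongDual ζ, ?_, fun φ => ?_⟩
  · show ζ ∈ _
    refine mem_closure_of_tendsto hT (Eventually.of_forall fun n => ⟨y n, hA n, rfl⟩)
  · have hcont : Continuous fun ζ : WeakDual ℝ (StrongDual ℝ X) => ζ φ :=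
      WeakDual.eval_continuous φ
    exact (hcont.tendsto ζ).comp hT

theorem norm_le_of_mem_wclosure (A : Set X) (B : ℝ) (hB0 : 0 ≤ B) (hB : ∀ a ∈ A, ‖a‖ ≤ B)
    (ψ : StrongDual ℝ (StrongDual ℝ X)) (hψ : ψ ∈ wclosure A) : ‖ψ‖ ≤ B := by
  have hcl := WeakDual.isClosed_closedBall (𝕜 := ℝ) (E := StrongDual ℝ X) 0 B
  have h1 : (fun a => StrongDual.toWeakDual (inclusionInDoubleDual ℝ X a)) '' A ⊆
      WeakDual.toStrongDual ⁻¹' Metric.closedBall (0 : StrongDual ℝ (StrongDual ℝ X)) B := by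
    rintro _ ⟨a, ha, rfl⟩
    show inclusionInDoubleDual ℝ X a ∈ Metric.closedBall (0 : StrongDual ℝ (StrongDual ℝ X)) B
    exact (mem_ball_iff _ _).2 ((double_dual_bound ℝ X a).trans (hB a ha))
  have h2 := closure_minimal h1 hcl hψ
  have h3 : ψ ∈ Metric.closedBall (0 : StrongDual ℝ (StrongDual ℝ X)) B := h2
  exact (mem_ball_iff _ _).1 h3

theorem infDist_le_wk (A : Set X) (B : ℝ) (hB : ∀ a ∈ A, ‖a‖ ≤ B)
    (ψ : StrongDual ℝ (StrongDual ℝ X)) (hψ : ψ ∈ wclosure A) (hB0 : 0 ≤ B) :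
    Metric.infDist ψ (Set.range (inclusionInDoubleDual ℝ X)) ≤ wk A := by
  unfold wk dhat
  refine le_ciSup (f := fun a : wclosure A =>
    Metric.infDist a.1 (Set.range (inclusionInDoubleDual ℝ X))) ⟨B, ?_⟩ ⟨ψ, hψ⟩
  rintro _ ⟨a, rfl⟩
  have h1 := norm_le_of_mem_wclosure A B hB0 hB a.1 a.2
  refine (Metric.infDist_le_dist_of_mem (Set.mem_range_self (0 : X))).trans ?_
  have h2 := dist_eq_norm a.1 (inclusionInDoubleDual ℝ X 0)
  rw [h2, map_zero]
  refine le_trans (le_of_eq ?_) h1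
  congr 1
  exact sub_zero a.1

theorem exists_near (A : Set X) (B : ℝ) (hB : ∀ a ∈ A, ‖a‖ ≤ B) (hB0 : 0 ≤ B)
    (ψ : StrongDual ℝ (StrongDual ℝ X)) (hψ : ψ ∈ wclosure A) (t : ℝ) (ht : wk A < t) :
    ∃ z : X, ∀ φ : StrongDual ℝ X, |ψ φ - φ z| ≤ t * ‖φ‖ := by
  have h1 := (infDist_le_wk A B hB ψ hψ hB0).trans_lt ht
  rw [Metric.infDist_lt_iff (Set.range_nonempty _)] at h1
  obtain ⟨_, ⟨z, rfl⟩, hz⟩ := h1
  refine ⟨z, fun φ => ?_⟩
  have h2 := dist_eq_norm ψ (inclusionInDoubleDual ℝ X z)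
  have h3 : ‖ψ - inclusionInDoubleDual ℝ X z‖ ≤ t := (h2.symm.le).trans hz.le
  have h4 := (ψ - inclusionInDoubleDual ℝ X z).le_opNorm φ
  rw [sub_apply, dual_def, Real.norm_eq_abs] at h4
  exact h4.trans (mul_le_mul_of_nonneg_right h3 (norm_nonneg _))

end General

variable {M : Type} [MetricSpace M]

theorem meas_key (o : M) (ε : ℝ) (hε : 0 < ε) (hsep : ∀ x y : M, x ≠ y → ε ≤ dist x y)
    (A : Set (FreeSp M o)) (B : ℝ) (hB : ∀ a ∈ A, ‖a‖ ≤ B) (x : ℕ → FreeSp M o)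
    (hx : ∀ n, x n ∈ A) (r : ℝ) (hr0 : 0 < r) (hr : ∀ m n, m < n → r ≤ ‖x n - x m‖) :
    r ≤ 3200 * wk A := by
  by_contra hcon
  rw [not_le] at hcon
  have hB0 : 0 ≤ B := (norm_nonneg _).trans (hB _ (hx 0))
  obtain ⟨t, ht1, ht2⟩ := exists_between (show wk A < r / 3200 by linarith)
  have hU : ((hyperfilter ℕ : Ultrafilter ℕ) : Filter ℕ) ≤ cofinite := hyperfilter_le_cofinite
  obtain ⟨ψ1, hψ1, hT1⟩ := exists_limit (hyperfilter ℕ) x B (fun n => hB _ (hx n)) A hx
  obtain ⟨z1, hz1⟩ := exists_near A B hB hB0 ψ1 hψ1 t ht1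
  have hκ : ∀ᶠ n in ((hyperfilter ℕ : Ultrafilter ℕ) : Filter ℕ), r / 2 ≤ ‖x n - z1‖ := by
    refine hU ?_
    rw [Filter.mem_cofinite]
    refine Set.Subsingleton.finite ?_
    intro a ha b hb
    simp only [mem_compl_iff, Set.mem_ofPred_eq, not_le] at ha hb
    by_contra hab
    have key : ∀ a b : ℕ, ‖x a - z1‖ < r / 2 → ‖x b - z1‖ < r / 2 → a < b → False := by
      intro a b ha hb hab
      have h1 := hr a b hab
      have h2 : x b - x a = (x b - z1) - (x a - z1) := by abel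
      rw [h2] at h1
      have h3 := norm_sub_le (x b - z1) (x a - z1)
      linarith
    rcases lt_or_gt_of_ne hab with h | h
    · exact key a b ha hb h
    · exact key b a hb ha h
  obtain ⟨m, D, hm, hD, hDt, hDp⟩ := extractX (hyperfilter ℕ) hU o ε hε hsep
    (fun n => x n - z1) (B + ‖z1‖) (fun n => by
      refine (norm_sub_le _ _).trans ?_
      linarith [hB _ (hx n)]) (r / 2) (by linarith) hκ
    (fun f hf => by
      have h1 := hz1 (ev o f)
      have h2 : t * ‖ev o f‖ ≤ r / 3200 := by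
        have h0 : 0 ≤ t * ‖ev o f‖ := (abs_nonneg _).trans h1
        rcases le_or_gt 0 t with h | h
        · have := mul_le_mul_of_nonneg_left ((norm_ev_le o f).trans hf) h
          linarith
        · nlinarith [norm_nonneg (ev o f)]
      have h3 : |ψ1 (ev o f) - ev o f z1| < r / 2 / 1000 := by linarith
      have h4 : Tendsto (fun n => |ev o f (x n) - ev o f z1|)
          ((hyperfilter ℕ : Ultrafilter ℕ) : Filter ℕ) (𝓝 |ψ1 (ev o f) - ev o f z1|) :=
        ((hT1 (ev o f)).sub_const _).abs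
      filter_upwards [h4.eventually (gt_mem_nhds h3)] with n hn
      rw [map_sub]
      exact hn.le)
  obtain ⟨ψ2, hψ2, hT2⟩ := exists_limit (hyperfilter ℕ) (fun k => x (m k)) B
    (fun n => hB _ (hx _)) A (fun n => hx _)
  obtain ⟨z2, hz2⟩ := exists_near A B hB hB0 ψ2 hψ2 t ht1
  have h1 : ∀ j, r / 40 ≤ ψ2 (ev o (D j)) - ev o (D j) z1 := by
    intro j
    have h2 : Tendsto (fun k => ev o (D j) (x (m k)) - ev o (D j) z1)
        ((hyperfilter ℕ : Ultrafilter ℕ) : Filter ℕ) (𝓝 (ψ2 (ev o (D j)) - ev o (D j) z1)) :=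
      (hT2 (ev o (D j))).sub_const _
    refine ge_of_tendsto h2 ?_
    have h3 : ∀ᶠ n in atTop, j ≤ n := eventually_ge_atTop j
    have h4 : ((hyperfilter ℕ : Ultrafilter ℕ) : Filter ℕ) ≤ atTop := by
      rw [← Nat.cofinite_eq_atTop]; exact hU
    filter_upwards [h4 h3] with k hk
    have h5 := hDp j k hk
    have h6 : inc M o (x (m k) - z1) (D j) = ev o (D j) (x (m k)) - ev o (D j) z1 := by
      rw [ev_apply, ev_apply, map_sub]; rfl
    rw [← h6]
    refine le_trans (le_of_eq ?_) h5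
    ring
  have ht0 : 0 ≤ t := by
    have := hz2 0
    by_contra h
    rw [not_le] at h
    have h2 : 0 ≤ Metric.infDist ψ2 (Set.range (inclusionInDoubleDual ℝ (FreeSp M o))) :=
      Metric.infDist_nonneg
    have h3 := infDist_le_wk A B hB ψ2 hψ2 hB0
    linarith
  have h2 : ∀ j, r / 40 - 80 * t ≤ inc M o (z2 - z1) (D j) := by
    intro j
    have h3 := h1 j
    have h4 := hz2 (ev o (D j))
    have h5 : t * ‖ev o (D j)‖ ≤ t * 80 :=
      mul_le_mul_of_nonneg_left ((norm_ev_le o (D j)).trans (hD j)) ht0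
    have h6 : inc M o (z2 - z1) (D j) = ev o (D j) z2 - ev o (D j) z1 := by
      rw [ev_apply, ev_apply, map_sub]; rfl
    rw [h6]
    have h7 := (abs_le.1 (h4.trans h5)).2
    linarith
  have h3 := tendsto_of_pointwise o D 80 hD hDt (z2 - z1)
  have h4 := ge_of_tendsto' h3 h2
  linarith

theorem omega_le (o : M) (ε : ℝ) (hε : 0 < ε) (hsep : ∀ x y : M, x ≠ y → ε ≤ dist x y)
    (A : Set (FreeSp M o)) (hne : A.Nonempty) (hA : Bornology.IsBounded A) :
    omega A ≤ 3200 * wk A := by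
  obtain ⟨B, hB⟩ := hA.exists_norm_le
  have hB0 : 0 ≤ B := by
    obtain ⟨a, ha⟩ := hne
    exact (norm_nonneg _).trans (hB a ha)
  have hw0 : 0 ≤ wk A := Real.iSup_nonneg fun _ => Metric.infDist_nonneg
  refine le_of_forall_pos_lt_add fun η hη => ?_
  set r : ℝ := 3200 * wk A + η / 2 with hr
  have hr0 : 0 < r := by positivity
  suffices h : omega A ≤ r by linarith
  by_cases H : ∃ s : Finset (FreeSp M o), (∀ x ∈ s, x ∈ A) ∧ ∀ y ∈ A, ∃ x ∈ s, ‖y - x‖ < r
  · obtain ⟨s, hs, hcov⟩ := H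
    have hsne : (s : Set (FreeSp M o)).Nonempty := by
      obtain ⟨a, ha⟩ := hne
      obtain ⟨x, hx, -⟩ := hcov a ha
      exact ⟨x, hx⟩
    have hcomp : IsCompact (toWeakSpace ℝ (FreeSp M o) '' (s : Set (FreeSp M o))) :=
      (s.finite_toSet.image _).isCompact
    have hb : BddBelow (Set.range fun K : {K : Set (FreeSp M o) // K.Nonempty ∧
        IsCompact (toWeakSpace ℝ (FreeSp M o) '' K)} => dhat A K.1) := by
      refine ⟨0, ?_⟩
      rintro _ ⟨K, rfl⟩
      exact Real.iSup_nonneg fun _ => Metric.infDist_nonneg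
    refine (ciInf_le hb ⟨(s : Set (FreeSp M o)), hsne, hcomp⟩).trans ?_
    have : Nonempty A := hne.to_subtype
    refine ciSup_le fun a => ?_
    obtain ⟨x, hx, hax⟩ := hcov a.1 a.2
    refine (Metric.infDist_le_dist_of_mem (s := (s : Set (FreeSp M o))) (y := x) hx).trans ?_
    exact (dist_eq_norm a.1 x).trans_le hax.le
  · push Not at H
    exfalso
    obtain ⟨x, hxA, hx⟩ := exists_seq_of_forall_finset_exists (fun a => a ∈ A)
      (fun a b => r ≤ ‖b - a‖) (fun s hs => by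
        obtain ⟨y, hy, hys⟩ := H s hs
        exact ⟨y, hy, hys⟩)
    have := meas_key o ε hε hsep A B hB x hxA r hr0 hx
    linarith

end Pool.Agent.H756QS
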