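import Pool.Agent.H756QS.Space

set_option autoImplicit false
set_option linter.unusedSectionVars false

/-!
Quantitative weak sequential completeness of Lipschitz-free spaces over uniformly separated
metric spaces: definitions and proof.
-/

noncomputable section

namespace Pool.Agent.H756QS

open Filter Set Topology NormedSpace Pool.Agent.H266R3.LF

section Defs

variable {X : Type} [NormedAddCommGroup X] [NormedSpace ℝ X]

/-- `inf_n sup_{k, l ≥ n} a k l`. -/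
def infSup (a : ℕ → ℕ → ℝ) : ℝ :=
  ⨅ n : ℕ, ⨆ p : {p : ℕ × ℕ // n ≤ p.1 ∧ n ≤ p.2}, a p.1.1 p.1.2

/-- `δ(x_n) = sup_{‖φ‖ ≤ 1} inf_n sup_{k, l ≥ n} |φ(x_k) - φ(x_l)|`. -/
def delta (x : ℕ → X) : ℝ :=
  ⨆ φ : {φ : StrongDual ℝ X // ‖φ‖ ≤ 1}, infSup fun k l => |φ.1 (x k) - φ.1 (x l)|

/-- `ca(x_n) = inf_n sup_{k, l ≥ n} ‖x_k - x_l‖`. -/
def ca (x : ℕ → X) : ℝ := infSup fun k l => ‖x k - x l‖

/-- The set of weak* cluster points in the bidual of the sequence `y`. -/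
def clust (y : ℕ → X) : Set (StrongDual ℝ (StrongDual ℝ X)) :=
  {ψ | MapClusterPt (StrongDual.toWeakDual ψ) atTop
    fun k => StrongDual.toWeakDual (inclusionInDoubleDual ℝ X (y k))}

/-- `wck(x_n)`: the supremum over all subsequences `y` of the distance (the infimum of the
distances) of the weak* cluster points of `y` to `X`. -/
def wck (x : ℕ → X) : ℝ :=
  ⨆ s : {s : ℕ → ℕ // StrictMono s}, ⨅ ψ : clust (fun k => x (s.1 k)),
    Metric.infDist ψ.1 (Set.range (inclusionInDoubleDual ℝ X))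

end Defs

variable {M : Type} [MetricSpace M]

theorem infSup_lt {a : ℕ → ℕ → ℝ} {B : ℝ} (hB : ∀ k l, |a k l| ≤ B) {r : ℝ}
    (h : infSup a < r) : ∃ n, ∀ k l, n ≤ k → n ≤ l → a k l < r := by
  unfold infSup at h
  obtain ⟨n, hn⟩ := exists_lt_of_ciInf_lt h
  refine ⟨n, fun k l hk hl => lt_of_le_of_lt ?_ hn⟩
  refine le_ciSup (f := fun p : {p : ℕ × ℕ // n ≤ p.1 ∧ n ≤ p.2} => a p.1.1 p.1.2)
    ⟨B, ?_⟩ ⟨(k, l), hk, hl⟩
  rintro _ ⟨p, rfl⟩
  exact (le_abs_self _).trans (hB _ _)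

theorem le_infSup {a : ℕ → ℕ → ℝ} {B : ℝ} (hB : ∀ k l, |a k l| ≤ B) {r : ℝ}
    (h : ∀ n, ∃ k l, n ≤ k ∧ n ≤ l ∧ r ≤ a k l) : r ≤ infSup a := by
  unfold infSup
  refine le_ciInf fun n => ?_
  obtain ⟨k, l, hk, hl, hr⟩ := h n
  refine hr.trans ?_
  refine le_ciSup (f := fun p : {p : ℕ × ℕ // n ≤ p.1 ∧ n ≤ p.2} => a p.1.1 p.1.2)
    ⟨B, ?_⟩ ⟨(k, l), hk, hl⟩
  rintro _ ⟨p, rfl⟩
  exact (le_abs_self _).trans (hB _ _)

theorem infSup_le {a : ℕ → ℕ → ℝ} {r : ℝ} (h0 : ∀ k l, 0 ≤ a k l)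
    (h : ∃ n, ∀ k l, n ≤ k → n ≤ l → a k l ≤ r) : infSup a ≤ r := by
  obtain ⟨n, hn⟩ := h
  unfold infSup
  have hb : BddBelow (Set.range fun n : ℕ =>
      ⨆ p : {p : ℕ × ℕ // n ≤ p.1 ∧ n ≤ p.2}, a p.1.1 p.1.2) := by
    refine ⟨0, ?_⟩
    rintro _ ⟨n, rfl⟩
    exact Real.iSup_nonneg fun p => h0 _ _
  refine (ciInf_le hb n).trans ?_
  have : Nonempty {p : ℕ × ℕ // n ≤ p.1 ∧ n ≤ p.2} := ⟨⟨(n, n), le_rfl, le_rfl⟩⟩
  exact ciSup_le fun p => hn _ _ p.2.1 p.2.2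

theorem delta_ge {X : Type} [NormedAddCommGroup X] [NormedSpace ℝ X] (x : ℕ → X) (B : ℝ)
    (hB : ∀ n, ‖x n‖ ≤ B) (φ : StrongDual ℝ X) (hφ : ‖φ‖ ≤ 1) :
    infSup (fun k l => |φ (x k) - φ (x l)|) ≤ delta x := by
  unfold delta
  refine le_ciSup (f := fun φ : {φ : StrongDual ℝ X // ‖φ‖ ≤ 1} =>
    infSup fun k l => |φ.1 (x k) - φ.1 (x l)|) ⟨2 * B, ?_⟩ ⟨φ, hφ⟩
  rintro _ ⟨ψ, rfl⟩
  refine infSup_le (fun _ _ => abs_nonneg _) ⟨0, fun k l _ _ => ?_⟩
  have h1 : ∀ n, |ψ.1 (x n)| ≤ B := by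
    intro n
    have h2 := ψ.1.le_opNorm (x n)
    have h3 : ‖ψ.1‖ * ‖x n‖ ≤ 1 * ‖x n‖ := mul_le_mul_of_nonneg_right ψ.2 (norm_nonneg _)
    rw [Real.norm_eq_abs] at h2
    linarith [hB n]
  refine (abs_sub _ _).trans ?_
  linarith [h1 k, h1 l]

/-- The quantitative Schur property: a bounded sequence is `r`-Cauchy from some point on as soon
as `1600 δ < r`. -/
theorem schur_key (o : M) (ε : ℝ) (hε : 0 < ε) (hsep : ∀ x y : M, x ≠ y → ε ≤ dist x y)
    (x : ℕ → FreeSp M o) (B : ℝ) (hB : ∀ n, ‖x n‖ ≤ B) (r : ℝ) (hr0 : 0 < r)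
    (hr : 1600 * delta x < r) : ∃ n, ∀ k l, n ≤ k → n ≤ l → ‖x k - x l‖ ≤ r := by
  by_contra hcon
  push Not at hcon
  choose k l hk hl hkl using hcon
  have hB0 : 0 ≤ B := (norm_nonneg _).trans (hB 0)
  have hbd : ∀ φ : StrongDual ℝ (FreeSp M o), ‖φ‖ ≤ 1 → ∀ k l, |(|φ (x k) - φ (x l)|)| ≤ 2 * B := by
    intro φ hφ k l
    have h1 : ∀ n, |φ (x n)| ≤ B := by
      intro n
      have h2 := φ.le_opNorm (x n)
      have h3 : ‖φ‖ * ‖x n‖ ≤ 1 * ‖x n‖ := mul_le_mul_of_nonneg_right hφ (norm_nonneg _)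
      rw [Real.norm_eq_abs] at h2
      linarith [hB n]
    rw [abs_abs]
    refine (abs_sub _ _).trans ?_
    linarith [h1 k, h1 l]
  have hδ0 : 0 ≤ delta x := by
    refine le_trans ?_ (delta_ge x B hB 0 (by simp))
    refine le_infSup (B := 0) (by simp) fun n => ⟨n, n, le_rfl, le_rfl, by simp⟩
  have hU : ((hyperfilter ℕ : Ultrafilter ℕ) : Filter ℕ) ≤ cofinite := hyperfilter_le_cofinite
  obtain ⟨m, D, hm, hD, -, hDp⟩ := extractX (hyperfilter ℕ) hU o ε hε hsep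
    (fun n => x (k n) - x (l n)) (2 * B) (fun n => by
      refine (norm_sub_le _ _).trans ?_
      linarith [hB (k n), hB (l n)]) r hr0 (Eventually.of_forall fun n => (hkl n).le)
    (fun f hf => by
      have h1 : infSup (fun k l => |ev o f (x k) - ev o f (x l)|) < r / 1000 := by
        refine lt_of_le_of_lt (delta_ge x B hB (ev o f) ((norm_ev_le o f).trans hf)) ?_
        linarith
      obtain ⟨n0, hn0⟩ := infSup_lt (hbd _ ((norm_ev_le o f).trans hf)) h1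
      have h2 : ∀ᶠ n in atTop, n0 ≤ n := eventually_ge_atTop n0
      have h3 : ((hyperfilter ℕ : Ultrafilter ℕ) : Filter ℕ) ≤ atTop := by
        rw [← Nat.cofinite_eq_atTop]; exact hU
      filter_upwards [h3 h2] with n hn
      have h4 := hn0 (k n) (l n) (hn.trans (hk n)) (hn.trans (hl n))
      rw [map_sub]
      exact h4.le)
  -- the functional `D 0 / 80`
  let φ : StrongDual ℝ (FreeSp M o) := (1 / 80 : ℝ) • ev o (D 0)
  have hφ : ‖φ‖ ≤ 1 := by
    show ‖(1 / 80 : ℝ) • ev o (D 0)‖ ≤ 1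
    rw [norm_smul, Real.norm_eq_abs, abs_of_pos (by norm_num : (0 : ℝ) < 1 / 80)]
    have := (norm_ev_le o (D 0)).trans (hD 0)
    linarith
  have h1 : r / 1600 ≤ infSup (fun k l => |φ (x k) - φ (x l)|) := by
    refine le_infSup (hbd φ hφ) fun n => ?_
    have hmn : n ≤ m n := hm.id_le n
    refine ⟨k (m n), l (m n), hmn.trans (hk _), hmn.trans (hl _), ?_⟩
    have h2 := hDp 0 n (Nat.zero_le n)
    have h3 : φ (x (k (m n))) - φ (x (l (m n))) =
        (1 / 80) * inc M o (x (k (m n)) - x (l (m n))) (D 0) := by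
      rw [map_sub]
      show (1 / 80 : ℝ) * inc M o (x (k (m n))) (D 0) - (1 / 80 : ℝ) * inc M o (x (l (m n))) (D 0) = _
      rw [sub_apply]; ring
    rw [h3]
    refine le_trans ?_ (le_abs_self _)
    linarith
  have h2 := h1.trans (delta_ge x B hB φ hφ)
  linarith

/-- Quantitative Schur property with constant `1600`. -/
theorem schur (o : M) (ε : ℝ) (hε : 0 < ε) (hsep : ∀ x y : M, x ≠ y → ε ≤ dist x y)
    (x : ℕ → FreeSp M o) (hx : Bornology.IsBounded (Set.range x)) : ca x ≤ 1600 * delta x := by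
  obtain ⟨B, hB'⟩ := hx.exists_norm_le
  have hB : ∀ n, ‖x n‖ ≤ B := fun n => hB' _ ⟨n, rfl⟩
  have hδ0 : 0 ≤ delta x := by
    refine le_trans ?_ (delta_ge x B hB 0 (by simp))
    refine le_infSup (B := 0) (by simp) fun n => ⟨n, n, le_rfl, le_rfl, by simp⟩
  refine le_of_forall_pos_lt_add fun η hη => ?_
  have h1 := schur_key o ε hε hsep x B hB (1600 * delta x + η / 2) (by positivity) (by linarith)
  have h2 : ca x ≤ 1600 * delta x + η / 2 := infSup_le (fun _ _ => norm_nonneg _) h1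
  linarith

theorem norm_clust_le {X : Type} [NormedAddCommGroup X] [NormedSpace ℝ X] (y : ℕ → X)
    (ψ : StrongDual ℝ (StrongDual ℝ X)) (hψ : ψ ∈ clust y) (z : X) (r : ℝ) (hr : 0 ≤ r)
    (N : ℕ) (hN : ∀ k, N ≤ k → ‖y k - z‖ ≤ r) :
    ‖ψ - inclusionInDoubleDual ℝ X z‖ ≤ r := by
  refine ContinuousLinearMap.opNorm_le_bound _ hr fun φ => ?_
  have hcont : Continuous fun ζ : WeakDual ℝ (StrongDual ℝ X) => ζ φ := WeakDual.eval_continuous φ
  have h1 : MapClusterPt (ψ φ) atTop fun k => φ (y k) :=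
    MapClusterPt.continuousAt_comp (f := fun ζ : WeakDual ℝ (StrongDual ℝ X) => ζ φ)
      hcont.continuousAt hψ
  rw [sub_apply, dual_def, Real.norm_eq_abs]
  by_contra hcon
  rw [not_le] at hcon
  have h2 : {t : ℝ | r * ‖φ‖ < |t - φ z|} ∈ 𝓝 (ψ φ) := by
    refine IsOpen.mem_nhds ?_ hcon
    exact isOpen_lt continuous_const ((continuous_id.sub continuous_const).abs)
  have h3 := (h1.frequently h2).and_eventually (eventually_ge_atTop N)
  obtain ⟨k, hk1, hk2⟩ := h3.exists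
  have h4 : |φ (y k) - φ z| ≤ r * ‖φ‖ := by
    rw [← map_sub]
    have h5 := φ.le_opNorm (y k - z)
    rw [Real.norm_eq_abs] at h5
    have h6 := mul_le_mul_of_nonneg_left (hN k hk2) (norm_nonneg φ)
    linarith
  exact absurd h4 (not_le.2 hk1)

/-- Quantitative weak sequential completeness. -/
theorem wsc (o : M) (ε : ℝ) (hε : 0 < ε) (hsep : ∀ x y : M, x ≠ y → ε ≤ dist x y)
    (x : ℕ → FreeSp M o) (hx : Bornology.IsBounded (Set.range x)) :
    wck x ≤ 1600 * delta x := by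
  obtain ⟨B, hB'⟩ := hx.exists_norm_le
  have hB : ∀ n, ‖x n‖ ≤ B := fun n => hB' _ ⟨n, rfl⟩
  have hδ0 : 0 ≤ delta x := by
    refine le_trans ?_ (delta_ge x B hB 0 (by simp))
    refine le_infSup (B := 0) (by simp) fun n => ⟨n, n, le_rfl, le_rfl, by simp⟩
  unfold wck
  have : Nonempty {s : ℕ → ℕ // StrictMono s} := ⟨⟨id, strictMono_id⟩⟩
  refine ciSup_le fun s => ?_
  rcases isEmpty_or_nonempty (clust (fun k => x (s.1 k))) with he | hne
  · rw [Real.iInf_of_isEmpty]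
    positivity
  · obtain ⟨ψ⟩ := hne
    refine le_of_forall_pos_lt_add fun η hη => ?_
    obtain ⟨N, hN⟩ := schur_key o ε hε hsep x B hB (1600 * delta x + η / 2) (by positivity)
      (by linarith)
    have h1 : ‖ψ.1 - inclusionInDoubleDual ℝ (FreeSp M o) (x (s.1 N))‖ ≤
        1600 * delta x + η / 2 := by
      refine norm_clust_le _ ψ.1 ψ.2 _ _ (by positivity) N fun k hk => ?_
      exact hN _ _ (hk.trans (s.2.id_le k)) (s.2.id_le N)
    have h2 : Metric.infDist ψ.1 (Set.range (inclusionInDoubleDual ℝ (FreeSp M o))) ≤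
        1600 * delta x + η / 2 := by
      refine (Metric.infDist_le_dist_of_mem (Set.mem_range_self (x (s.1 N)))).trans ?_
      exact (dist_eq_norm ψ.1 (inclusionInDoubleDual ℝ (FreeSp M o) (x (s.1 N)))).trans_le h1
    have hb : BddBelow (Set.range fun ψ : clust (fun k => x (s.1 k)) =>
        Metric.infDist ψ.1 (Set.range (inclusionInDoubleDual ℝ (FreeSp M o)))) := by
      refine ⟨0, ?_⟩
      rintro _ ⟨ψ, rfl⟩
      exact Metric.infDist_nonneg
    have h3 := ciInf_le hb ψ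
    have h4 := h3.trans h2
    linarith

end Pool.Agent.H756QS
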