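import Pool.Agent.H756QS.Core
import Pool.Agent.H266R3.LDef

set_option autoImplicit false
set_option linter.unusedSectionVars false

/-!
The extraction theorem in the Lipschitz-free space.
-/

noncomputable section

namespace Pool.Agent.H756QS

open Filter Set Topology Pool.Agent.H266R3.LF

variable {M : Type} [MetricSpace M]

theorem exists_rep (o : M) (μ : StrongDual ℝ (Lip0 M o))
    (hμ : μ ∈ Submodule.span ℝ (Set.range (dlt M o))) :
    ∃ w : M →₀ ℝ, w o = 0 ∧ ∀ f : Lip0 M o, μ f = pr w f.fn := by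
  classical
  have key : ∃ w : M →₀ ℝ, ∀ f : Lip0 M o, μ f = pr w f.fn := by
    induction hμ using Submodule.span_induction with
    | mem x hx =>
      obtain ⟨p, rfl⟩ := hx
      refine ⟨Finsupp.single p 1, fun f => ?_⟩
      rw [dlt_apply]
      unfold pr
      rw [Finsupp.support_single_ne_zero p (one_ne_zero (α := ℝ)), Finset.sum_singleton,
        Finsupp.single_eq_same, one_mul]
    | zero => exact ⟨0, fun f => by simp [pr]⟩
    | add x y _ _ ihx ihy =>
      obtain ⟨w1, h1⟩ := ihx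
      obtain ⟨w2, h2⟩ := ihy
      refine ⟨w1 + w2, fun f => ?_⟩
      rw [add_apply, h1, h2]
      have e : ∀ w : M →₀ ℝ, pr w f.fn = w.sum fun x a => a * f.fn x := fun w => rfl
      rw [e, e, e, Finsupp.sum_add_index']
      · intro a; simp
      · intro a b c; ring
    | smul c x _ ih =>
      obtain ⟨w, h⟩ := ih
      refine ⟨c • w, fun f => ?_⟩
      rw [smul_apply, h, smul_eq_mul]
      have e : ∀ w : M →₀ ℝ, pr w f.fn = w.sum fun x a => a * f.fn x := fun w => rfl
      rw [e, e, Finsupp.sum_smul_index', Finsupp.mul_sum]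
      · refine Finsupp.sum_congr fun x _ => ?_
        rw [smul_eq_mul]; ring
      · intro i; simp
  obtain ⟨w, hw⟩ := key
  refine ⟨w.erase o, by simp, fun f => ?_⟩
  rw [hw]
  unfold pr
  rw [Finsupp.support_erase]
  by_cases ho : o ∈ w.support
  · rw [← Finset.add_sum_erase _ _ ho, Lip0.fn_base, mul_zero, zero_add]
    refine Finset.sum_congr rfl fun x hx => ?_
    rw [Finsupp.erase_ne (Finset.ne_of_mem_erase hx)]
  · rw [Finset.erase_eq_of_notMem ho]
    refine Finset.sum_congr rfl fun x hx => ?_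
    rw [Finsupp.erase_ne (fun h : x = o => ho (by rw [← h]; exact hx))]

/-- total variation bound in a uniformly separated space -/
theorem tv_bound (o : M) (ε : ℝ) (hε : 0 < ε) (hsep : ∀ x y : M, x ≠ y → ε ≤ dist x y)
    (μ : StrongDual ℝ (Lip0 M o)) (w : M →₀ ℝ) (hw0 : w o = 0)
    (hw : ∀ f : Lip0 M o, μ f = pr w f.fn) :
    ∑ x ∈ w.support, |w x| ≤ 2 * ‖μ‖ / ε := by
  let s : M → ℝ := fun x => ε / 2 * (SignType.sign (w x) : ℝ)
  have hs1 : ∀ x, |s x| ≤ ε / 2 := by
    intro x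
    show |ε / 2 * (SignType.sign (w x) : ℝ)| ≤ ε / 2
    rw [abs_mul, abs_of_pos (by positivity : 0 < ε / 2)]
    have : |(SignType.sign (w x) : ℝ)| ≤ 1 := by
      rcases lt_trichotomy (w x) 0 with h | h | h
      · simp [h]
      · simp [h]
      · simp [h]
    nlinarith
  have hs0 : s o = 0 := by
    show ε / 2 * (SignType.sign (w o) : ℝ) = 0
    rw [hw0]; simp
  have hsl : ∀ x y, |s x - s y| ≤ 1 * dist x y := by
    intro x y
    rcases eq_or_ne x y with rfl | hxy
    · simp
    · have h1 := hsep x y hxy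
      have h2 := (abs_sub (s x) (s y)).trans (add_le_add (hs1 x) (hs1 y))
      linarith
  let F : Lip0 M o := Lip0.mk s hs0 1 zero_le_one hsl
  have hF : ‖F‖ ≤ 1 := Lip0.norm_le' F zero_le_one hsl
  have h1 : μ F = ε / 2 * ∑ x ∈ w.support, |w x| := by
    rw [hw, Finset.mul_sum]
    unfold pr
    refine Finset.sum_congr rfl fun x _ => ?_
    show w x * (ε / 2 * (SignType.sign (w x) : ℝ)) = _
    have : |w x| = w x * (SignType.sign (w x) : ℝ) := by
      rw [mul_comm]
      exact (sign_mul_self (w x)).symm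
    rw [this]; ring
  have h2 : μ F ≤ ‖μ‖ := by
    have h3 := μ.le_opNorm F
    have h4 : ‖μ‖ * ‖F‖ ≤ ‖μ‖ * 1 := mul_le_mul_of_nonneg_left hF (norm_nonneg _)
    have h5 := le_abs_self (μ F)
    rw [Real.norm_eq_abs] at h3
    linarith
  rw [h1] at h2
  rw [le_div_iff₀ hε]
  linarith

/-- The extraction theorem for bounded sequences of the Lipschitz-free space of a uniformly
separated metric space. -/
theorem extractX (U : Ultrafilter ℕ) (hU : (U : Filter ℕ) ≤ cofinite) (o : M) (ε : ℝ)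
    (hε : 0 < ε) (hsep : ∀ x y : M, x ≠ y → ε ≤ dist x y) (v : ℕ → FreeSp M o) (B : ℝ)
    (hB : ∀ n, ‖v n‖ ≤ B) (κ : ℝ) (hκ : 0 < κ) (hv : ∀ᶠ n in (U : Filter ℕ), κ ≤ ‖v n‖)
    (ht : ∀ f : Lip0 M o, ‖f‖ ≤ 1 → ∀ᶠ n in (U : Filter ℕ), |inc M o (v n) f| ≤ κ / 1000) :
    ∃ (m : ℕ → ℕ) (D : ℕ → Lip0 M o), StrictMono m ∧ (∀ j, ‖D j‖ ≤ 80) ∧
      (∀ x, Tendsto (fun j => (D j).fn x) atTop (𝓝 0)) ∧
      ∀ j k, j ≤ k → κ / 20 ≤ inc M o (v (m k)) (D j) := by
  have hB0 : 0 ≤ B := (norm_nonneg _).trans (hB 0)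
  -- approximation by finitely supported elements
  have happ : ∀ n, ∃ w : M →₀ ℝ, ∃ μ : StrongDual ℝ (Lip0 M o), w o = 0 ∧
      (∀ f : Lip0 M o, μ f = pr w f.fn) ∧ ‖inc M o (v n) - μ‖ ≤ κ / 10000 := by
    intro n
    have h1 : inc M o (v n) ∈
        closure ((Submodule.span ℝ (Set.range (dlt M o)) : Submodule ℝ _) : Set _) := inc_mem (v n)
    rw [Metric.mem_closure_iff] at h1
    obtain ⟨μ, hμ, hd⟩ := h1 (κ / 10000) (by positivity)
    obtain ⟨w, hw0, hw⟩ := exists_rep o μ hμ
    rw [dist_eq_norm] at hd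
    exact ⟨w, μ, hw0, hw, hd.le⟩
  choose w μ hw0 hw hwμ using happ
  have hclose : ∀ n (f : Lip0 M o), |inc M o (v n) f - pr (w n) f.fn| ≤ κ / 10000 * ‖f‖ := by
    intro n f
    rw [← hw]
    have h1 := (inc M o (v n) - μ n).le_opNorm f
    rw [sub_apply, Real.norm_eq_abs] at h1
    exact h1.trans (mul_le_mul_of_nonneg_right (hwμ n) (norm_nonneg _))
  -- norming functions
  have hnorm : ∀ n, ∃ f : Lip0 M o, ‖f‖ ≤ 1 ∧ (κ ≤ ‖v n‖ → 99 / 100 * κ ≤ inc M o (v n) f) := by
    intro n
    by_cases hn : κ ≤ ‖v n‖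
    · have h1 : 99 / 100 * κ < ‖inc M o (v n)‖ := by
        rw [norm_inc]; linarith
      obtain ⟨f, hf1, hf2⟩ := (inc M o (v n)).exists_lt_apply_of_lt_opNorm h1
      rw [Real.norm_eq_abs] at hf2
      rcases le_total 0 (inc M o (v n) f) with hs | hs
      · rw [abs_of_nonneg hs] at hf2
        exact ⟨f, hf1.le, fun _ => hf2.le⟩
      · rw [abs_of_nonpos hs] at hf2
        refine ⟨-f, by rw [norm_neg]; exact hf1.le, fun _ => ?_⟩
        rw [map_neg]
        exact hf2.le
    · exact ⟨0, by simp, fun h => absurd h hn⟩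
  choose f hf1 hf2 using hnorm
  have hK : ∀ n, ∑ x ∈ (w n).support, |w n x| ≤ 2 * (B + κ) / ε := by
    intro n
    refine (tv_bound o ε hε hsep (μ n) (w n) (hw0 n) (hw n)).trans ?_
    have h1 : ‖μ n‖ ≤ B + κ := by
      have h2 : μ n = inc M o (v n) - (inc M o (v n) - μ n) := by abel
      rw [h2]
      refine (norm_sub_le _ _).trans ?_
      have h3 := hwμ n
      have h4 := hB n
      rw [← norm_inc] at h4
      linarith
    gcongr
  have hpr : ∀ᶠ n in (U : Filter ℕ), 49 / 50 * κ ≤ pr (w n) ((f n).fn) := by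
    filter_upwards [hv] with n hn
    have h1 := hf2 n hn
    have h2 := (abs_le.1 (hclose n (f n))).2
    have h3 := hf1 n
    have h4 : κ / 10000 * ‖f n‖ ≤ κ / 10000 * 1 := mul_le_mul_of_nonneg_left h3 (by positivity)
    linarith
  obtain ⟨m, D, hm, hD0, hDl, hDt, hDp⟩ := extract U hU o ε hε hsep w (2 * (B + κ) / ε)
    (by positivity) hK (fun n => (f n).fn) (fun n => (f n).fn_base) (fun n x y => by
      have h1 := (f n).abs_sub_le x y
      have h2 := mul_le_mul_of_nonneg_right (hf1 n) (dist_nonneg (x := x) (y := y))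
      linarith) (49 / 50 * κ) (by positivity) (fun g hg0 hgl => by
        have hgl' : ∀ x y, |g x - g y| ≤ 1 * dist x y := fun x y => by
          rw [one_mul]; exact hgl x y
        let G : Lip0 M o := Lip0.mk g hg0 1 zero_le_one hgl'
        have hG : ‖G‖ ≤ 1 := Lip0.norm_le' G zero_le_one hgl'
        filter_upwards [ht G hG] with n hn
        have h1 := hclose n G
        have h2 : κ / 10000 * ‖G‖ ≤ κ / 10000 * 1 := mul_le_mul_of_nonneg_left hG (by positivity)
        have h3 : pr (w n) g = inc M o (v n) G - (inc M o (v n) G - pr (w n) G.fn) := by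
          have : G.fn = g := rfl
          rw [this]; ring
        rw [h3]
        refine (abs_sub _ _).trans ?_
        linarith) hpr
  let D' : ℕ → Lip0 M o := fun j => Lip0.mk (D j) (hD0 j) 80 (by norm_num) (hDl j)
  have hD' : ∀ j, ‖D' j‖ ≤ 80 := fun j => Lip0.norm_le' _ (by norm_num) (hDl j)
  refine ⟨m, D', hm, hD', hDt, fun j k hjk => ?_⟩
  have h1 := hDp j k hjk
  have h2 := (abs_le.1 (hclose (m k) (D' j))).1
  have h3 : (D' j).fn = D j := rfl
  rw [h3] at h2
  have h4 : κ / 10000 * ‖D' j‖ ≤ κ / 10000 * 80 :=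
    mul_le_mul_of_nonneg_left (hD' j) (by positivity)
  linarith

/-- functions of bounded Lipschitz constant converging pointwise to zero converge to zero on the
Lipschitz-free space -/
theorem tendsto_of_pointwise (o : M) (D : ℕ → Lip0 M o) (K : ℝ) (hD : ∀ j, ‖D j‖ ≤ K)
    (hDt : ∀ x, Tendsto (fun j => (D j).fn x) atTop (𝓝 0)) (z : FreeSp M o) :
    Tendsto (fun j => inc M o z (D j)) atTop (𝓝 0) := by
  have hK : 0 ≤ K := (norm_nonneg _).trans (hD 0)
  rw [Metric.tendsto_atTop]
  intro η hη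
  have h1 : inc M o z ∈
      closure ((Submodule.span ℝ (Set.range (dlt M o)) : Submodule ℝ _) : Set _) := inc_mem z
  rw [Metric.mem_closure_iff] at h1
  obtain ⟨μ, hμ, hd⟩ := h1 (η / (2 * (K + 1))) (by positivity)
  obtain ⟨w, -, hw⟩ := exists_rep o μ hμ
  have h2 : Tendsto (fun j => μ (D j)) atTop (𝓝 0) := by
    simp only [hw]
    unfold pr
    have h3 : Tendsto (fun j => ∑ x ∈ w.support, w x * (D j).fn x) atTop
        (𝓝 (∑ x ∈ w.support, w x * 0)) :=
      tendsto_finsetSum _ fun x _ => (hDt x).const_mul _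
    simpa using h3
  rw [Metric.tendsto_atTop] at h2
  obtain ⟨N, hN⟩ := h2 (η / 2) (by positivity)
  refine ⟨N, fun j hj => ?_⟩
  have h3 := hN j hj
  rw [dist_zero_right, Real.norm_eq_abs] at h3 ⊢
  have h4 := (inc M o z - μ).le_opNorm (D j)
  rw [sub_apply, Real.norm_eq_abs] at h4
  rw [dist_eq_norm] at hd
  have h5 : ‖inc M o z - μ‖ * ‖D j‖ ≤ η / (2 * (K + 1)) * K :=
    mul_le_mul hd.le (hD j) (norm_nonneg _) (by positivity)
  have h6 : η / (2 * (K + 1)) * K ≤ η / 2 := by
    rw [div_mul_eq_mul_div, div_le_div_iff₀ (by positivity) (by positivity)]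
    nlinarith
  have h7 : inc M o z (D j) = (inc M o z (D j) - μ (D j)) + μ (D j) := by ring
  rw [h7]
  calc _ ≤ |inc M o z (D j) - μ (D j)| + |μ (D j)| := abs_add_le _ _
    _ < η := by linarith

/-- the functional on the Lipschitz-free space given by a Lipschitz function -/
def ev (o : M) (f : Lip0 M o) : StrongDual ℝ (FreeSp M o) :=
  LinearMap.mkContinuous
    { toFun := fun z => inc M o z f
      map_add' := fun x y => by rw [map_add]; rfl
      map_smul' := fun c x => by rw [map_smul]; rfl } ‖f‖ (fun z => by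
        have h1 := (inc M o z).le_opNorm f
        rw [norm_inc, mul_comm] at h1
        exact h1)

theorem ev_apply (o : M) (f : Lip0 M o) (z : FreeSp M o) : ev o f z = inc M o z f := rfl

theorem norm_ev_le (o : M) (f : Lip0 M o) : ‖ev o f‖ ≤ ‖f‖ :=
  LinearMap.mkContinuous_norm_le _ (norm_nonneg _) _

end Pool.Agent.H756QS
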